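import Mathlib

set_option autoImplicit false

/-! Intersecting families of subsets of `{0, ..., n-1}` and their maximal densities. -/

namespace Pool.Agent.H371Z.Inc

open Finset

/-- Any two members have at least `t` common elements. -/
def TInt (t : ℕ) (F : Finset (Finset ℕ)) : Prop := ∀ A ∈ F, ∀ B ∈ F, t ≤ (A ∩ B).card

/-- Any three members (not necessarily distinct) have at least `s` common elements. -/
def W3 (s : ℕ) (F : Finset (Finset ℕ)) : Prop :=
  ∀ A ∈ F, ∀ B ∈ F, ∀ C ∈ F, s ≤ (A ∩ B ∩ C).card

open Classical in
/-- The largest size of a family of subsets of `{0, ..., n-1}` with the property `P`. -/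
noncomputable def maxCard (n : ℕ) (P : Finset (Finset ℕ) → Prop) : ℕ :=
  (((range n).powerset.powerset).filter P).sup Finset.card

/-- The largest density `|F| / 2 ^ n` of a 3-wise `s`-intersecting family. -/
noncomputable def aa (s n : ℕ) : ℝ := (maxCard n (W3 s) : ℝ) / 2 ^ n

/-- The largest density of a `t`-intersecting family. -/
noncomputable def bb (t n : ℕ) : ℝ := (maxCard n (TInt t) : ℝ) / 2 ^ n

/-- The largest density of a family that is 3-wise `s`-intersecting and `t`-intersecting. -/
noncomputable def cc (s t n : ℕ) : ℝ := (maxCard n (fun F => W3 s F ∧ TInt t F) : ℝ) / 2 ^ n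

end Pool.Agent.H371Z.Inc
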