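import Pool.Agent.H371Z.Inc.Push

set_option autoImplicit false

/-! Fibres, complements and tail estimates. -/

namespace Pool.Agent.H371Z.Inc

open Finset

theorem cross_card (W : Finset ℕ) (U V : Finset (Finset ℕ)) (hU : U ⊆ W.powerset)
    (hV : V ⊆ W.powerset) (h : ∀ x ∈ U, ∀ y ∈ V, (x ∩ y).Nonempty) :
    U.card + V.card ≤ 2 ^ W.card := by
  have hinj : Set.InjOn (fun y => W \ y) V := by
    intro x hx y hy hxy
    have a1 := mem_powerset.1 (hV hx)
    have a2 := mem_powerset.1 (hV hy)
    simp only at hxy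
    rw [← Finset.sdiff_sdiff_eq_self a1, ← Finset.sdiff_sdiff_eq_self a2, hxy]
  have hdis : Disjoint U (V.image (fun y => W \ y)) := by
    rw [disjoint_left]
    intro x hx hx'
    obtain ⟨y, hy, rfl⟩ := mem_image.1 hx'
    obtain ⟨a, ha⟩ := h _ hx y hy
    simp only [mem_inter, mem_sdiff] at ha
    exact ha.1.2 ha.2
  rw [← card_image_of_injOn hinj, ← card_union_of_disjoint hdis, ← card_powerset]
  apply card_le_card
  apply union_subset hU
  intro x hx
  obtain ⟨y, _, rfl⟩ := mem_image.1 hx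
  exact mem_powerset.2 sdiff_subset

/-- 2-intersecting families have density at most `m / (2 m + 1)`. -/
theorem two_int (L M : ℕ) (hLM : L ≤ M) (P : Finset (Finset ℕ)) (hP : P ⊆ (Ico L M).powerset)
    (h : ∀ x ∈ P, ∀ y ∈ P, 2 ≤ (x ∩ y).card) :
    (2 * (M - L) + 1) * P.card ≤ (M - L) * 2 ^ (M - L) := by
  classical
  set W := Ico L M with hW
  set Nb := W.powerset.filter (fun q => q ∉ P ∧ ∃ p ∈ P, ∃ e, ∀ a, a ≠ e → (a ∈ q ↔ a ∈ p))
    with hNb
  have h1 : (P ∪ Nb).card + P.card ≤ 2 ^ W.card := by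
    apply cross_card W _ _ (union_subset hP (filter_subset _ _)) hP
    intro x hx y hy
    rcases mem_union.1 hx with hx | hx
    · exact card_pos.1 (by have := h x hx y hy; omega)
    · obtain ⟨_, _, p, hp, e, he⟩ := mem_filter.1 hx
      have h2 := h p hp y hy
      have h3 : (p ∩ y).erase e ⊆ x ∩ y := by
        intro a ha
        obtain ⟨a1, a2⟩ := mem_erase.1 ha
        obtain ⟨a3, a4⟩ := mem_inter.1 a2
        exact mem_inter.2 ⟨(he a a1).2 a3, a4⟩
      have h4 := card_le_card h3
      have h5 := pred_card_le_card_erase (s := p ∩ y) (a := e)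
      exact card_pos.1 (by omega)
  have hdis : Disjoint P Nb := by
    rw [disjoint_left]
    intro x hx hx'
    exact (mem_filter.1 hx').2.1 hx
  rw [card_union_of_disjoint hdis, hW, Nat.card_Ico] at h1
  have h2 : P.card ≤ (M - L) * Nb.card := by
    have hsub : P ⊆ (range (M - L)).biUnion
        (fun j => Nb.image (fun q => symmDiff q (Ico L (L + (j + 1))))) := by
      intro p hp
      have hex : ∃ j, j ≤ M - L ∧ symmDiff p (Ico L (L + j)) ∉ P := by
        refine ⟨M - L, le_rfl, fun hc => ?_⟩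
        have h3 := h _ hc p hp
        have h4 : symmDiff p (Ico L (L + (M - L))) ∩ p = ∅ := by
          ext a
          simp only [mem_inter, mem_symmDiff, notMem_empty, iff_false, not_and]
          intro h5 h6
          have h7 : a ∈ Ico L (L + (M - L)) := by
            have := mem_powerset.1 (hP hp) h6
            rw [hW, mem_Ico] at this
            exact mem_Ico.2 ⟨this.1, by omega⟩
          tauto
        rw [h4, card_empty] at h3
        omega
      have hj := Nat.find_spec hex
      have hj0 : Nat.find hex ≠ 0 := by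
        intro h0
        rw [h0] at hj
        apply hj.2
        have he : symmDiff p (Ico L (L + 0)) = p := by
          ext a; simp [mem_symmDiff]
        rw [he]; exact hp
      obtain ⟨j, hjj⟩ : ∃ j, Nat.find hex = j + 1 := ⟨Nat.find hex - 1, by omega⟩
      have hmin := Nat.find_min hex (m := j) (by omega)
      rw [hjj] at hj
      have hin : symmDiff p (Ico L (L + j)) ∈ P := by
        by_contra hc
        exact hmin ⟨by omega, hc⟩
      refine mem_biUnion.2 ⟨j, mem_range.2 (by omega),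
        mem_image.2 ⟨symmDiff p (Ico L (L + (j + 1))), ?_, symmDiff_symmDiff_cancel_right _ _⟩⟩
      refine mem_filter.2 ⟨mem_powerset.2 ?_, hj.2, _, hin, L + j, ?_⟩
      · intro a ha
        rcases mem_symmDiff.1 ha with ha | ha
        · exact mem_powerset.1 (hP hp) ha.1
        · have := mem_Ico.1 ha.1
          rw [hW]
          exact mem_Ico.2 ⟨this.1, by omega⟩
      · intro a ha
        have : a ∈ Ico L (L + (j + 1)) ↔ a ∈ Ico L (L + j) := by
          simp only [mem_Ico]; omega
        simp only [mem_symmDiff, this]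
    refine (card_le_card hsub).trans (card_biUnion_le.trans ?_)
    calc ∑ j ∈ range (M - L), (Nb.image (fun q => symmDiff q (Ico L (L + (j + 1))))).card
        ≤ ∑ j ∈ range (M - L), Nb.card := sum_le_sum (fun j _ => card_image_le)
      _ = (M - L) * Nb.card := by rw [sum_const, card_range, smul_eq_mul]
  have h3 := Nat.mul_le_mul_left (M - L) h1
  nlinarith

/-- The members with a given trace. -/
def fib (F : Finset (Finset ℕ)) (L : ℕ) (u : Finset ℕ) : Finset (Finset ℕ) :=
  F.filter (fun X => X ∩ range L = u)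

/-- The tails of the members with a given trace. -/
def tl (F : Finset (Finset ℕ)) (L : ℕ) (u : Finset ℕ) : Finset (Finset ℕ) :=
  (fib F L u).image (fun X => X \ range L)

theorem card_tl (F : Finset (Finset ℕ)) (L : ℕ) (u : Finset ℕ) :
    (tl F L u).card = (fib F L u).card := by
  apply card_image_of_injOn
  intro X hX Y hY h
  have a1 := (mem_filter.1 (mem_coe.1 hX)).2
  have a2 := (mem_filter.1 (mem_coe.1 hY)).2
  simp only at h
  rw [← sdiff_union_inter X (range L), ← sdiff_union_inter Y (range L), h, a1, a2]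

theorem tl_sub {n : ℕ} {F : Finset (Finset ℕ)} (hF : F ⊆ (range n).powerset) (L : ℕ)
    (u : Finset ℕ) : tl F L u ⊆ (Ico L n).powerset := by
  intro x hx
  obtain ⟨X, hX, rfl⟩ := mem_image.1 hx
  rw [mem_powerset]
  intro a ha
  obtain ⟨a1, a2⟩ := mem_sdiff.1 ha
  have := mem_range.1 (mem_powerset.1 (hF (mem_filter.1 hX).1) a1)
  rw [mem_range] at a2
  exact mem_Ico.2 ⟨by omega, this⟩

theorem fib_le {n : ℕ} {F : Finset (Finset ℕ)} (hF : F ⊆ (range n).powerset) (L : ℕ)
    (u : Finset ℕ) : (fib F L u).card ≤ 2 ^ (n - L) := by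
  rw [← card_tl, ← Nat.card_Ico, ← card_powerset]
  exact card_le_card (tl_sub hF L u)

theorem fib_cross {n : ℕ} {F : Finset (Finset ℕ)} (hF : F ⊆ (range n).powerset) (L : ℕ)
    (u v : Finset ℕ)
    (h : ∀ X ∈ fib F L u, ∀ Y ∈ fib F L v, (X ∩ Y ∩ range L).card < (X ∩ Y).card) :
    (fib F L u).card + (fib F L v).card ≤ 2 ^ (n - L) := by
  rw [← card_tl, ← card_tl, ← Nat.card_Ico]
  apply cross_card _ _ _ (tl_sub hF L u) (tl_sub hF L v)
  intro x hx y hy
  obtain ⟨X, hX, rfl⟩ := mem_image.1 hx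
  obtain ⟨Y, hY, rfl⟩ := mem_image.1 hy
  obtain ⟨a, a1, a2⟩ := exists_mem_notMem_of_card_lt_card (h X hX Y hY)
  refine ⟨a, ?_⟩
  simp only [mem_inter, mem_sdiff, not_and] at a1 a2 ⊢
  tauto

theorem fib_half {n t : ℕ} {F : Finset (Finset ℕ)} (hF : F ⊆ (range n).powerset) (hT : TInt t F)
    (L : ℕ) (hL : L < t) (u : Finset ℕ) : 2 * (fib F L u).card ≤ 2 ^ (n - L) := by
  rw [two_mul]
  apply fib_cross hF
  intro X hX Y hY
  have h1 := hT X (mem_filter.1 hX).1 Y (mem_filter.1 hY).1
  have h2 : (X ∩ Y ∩ range L).card ≤ L := by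
    have := card_le_card (inter_subset_right (s₁ := X ∩ Y) (s₂ := range L))
    rwa [card_range] at this
  omega

theorem card_filter_trace (F : Finset (Finset ℕ)) (L : ℕ) (C : Finset (Finset ℕ)) :
    (F.filter (fun X => X ∩ range L ∈ C)).card = ∑ u ∈ C, (fib F L u).card := by
  rw [card_eq_sum_card_fiberwise (f := fun X => X ∩ range L)
    (s := F.filter (fun X => X ∩ range L ∈ C)) (t := C)
    (fun X hX => mem_coe.2 (mem_filter.1 (mem_coe.1 hX)).2)]
  apply sum_congr rfl
  intro u hu
  unfold fib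
  rw [filter_filter]
  congr 1
  apply filter_congr
  intro X _
  constructor
  · exact fun h => h.2
  · exact fun h => ⟨h ▸ hu, h⟩

theorem filter_trace_le {n : ℕ} {F : Finset (Finset ℕ)} (hF : F ⊆ (range n).powerset) (L : ℕ)
    (C : Finset (Finset ℕ)) :
    (F.filter (fun X => X ∩ range L ∈ C)).card ≤ C.card * 2 ^ (n - L) := by
  rw [card_filter_trace, ← smul_eq_mul, ← sum_const]
  exact sum_le_sum (fun u _ => fib_le hF L u)

theorem filter_trace_half {n t : ℕ} {F : Finset (Finset ℕ)} (hF : F ⊆ (range n).powerset)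
    (hT : TInt t F) (L : ℕ) (hL : L < t) (C : Finset (Finset ℕ)) :
    2 * (F.filter (fun X => X ∩ range L ∈ C)).card ≤ C.card * 2 ^ (n - L) := by
  rw [card_filter_trace, ← smul_eq_mul C.card, ← sum_const, mul_sum]
  exact sum_le_sum (fun u _ => fib_half hF hT L hL u)

/-- Few subsets are dense. -/
theorem DD_le (N : ℕ) : (DD N : ℝ) ≤ (19 / 10) ^ N := by
  have h1 : ∑ X ∈ (range N).powerset, (2 : ℝ) ^ X.card = 3 ^ N := by
    have := sum_pow_mul_eq_add_pow (2 : ℝ) 1 (range N)
    simp only [one_pow, mul_one, card_range] at this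
    rw [this]; norm_num
  have hc : ((30 : ℝ) / 19) ^ 3 ≤ 4 := by norm_num
  have h2 : ∀ X ∈ (range N).powerset.filter (fun X => 2 * N ≤ 3 * X.card),
      ((30 : ℝ) / 19) ^ N ≤ (2 : ℝ) ^ X.card := by
    intro X hX
    have h3 := (mem_filter.1 hX).2
    have h4 : (((30 : ℝ) / 19) ^ N) ^ 3 ≤ ((2 : ℝ) ^ X.card) ^ 3 := by
      calc (((30 : ℝ) / 19) ^ N) ^ 3 = (((30 : ℝ) / 19) ^ 3) ^ N := by
            rw [← pow_mul, ← pow_mul, mul_comm]
        _ ≤ 4 ^ N := pow_le_pow_left₀ (by positivity) hc N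
        _ = 2 ^ (2 * N) := by rw [pow_mul]; norm_num
        _ ≤ 2 ^ (3 * X.card) := pow_le_pow_right₀ (by norm_num) h3
        _ = ((2 : ℝ) ^ X.card) ^ 3 := by rw [← pow_mul, mul_comm]
    exact le_of_pow_le_pow_left₀ (by norm_num) (by positivity) h4
  have h3 := card_nsmul_le_sum _ _ _ h2
  have h4 : ∑ X ∈ (range N).powerset.filter (fun X => 2 * N ≤ 3 * X.card), (2 : ℝ) ^ X.card
      ≤ 3 ^ N := by
    rw [← h1]
    exact sum_le_sum_of_subset_of_nonneg (filter_subset _ _) (fun _ _ _ => by positivity)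
  rw [nsmul_eq_mul] at h3
  have h5 : (3 : ℝ) ^ N = (19 / 10) ^ N * (30 / 19) ^ N := by
    rw [← mul_pow]; norm_num
  have h6 : (0 : ℝ) < (30 / 19) ^ N := by positivity
  unfold DD
  rw [h5] at h4
  exact le_of_mul_le_mul_right (h3.trans h4) h6

/-- The mass lost along the chain. -/
theorem lost_le (L n : ℕ) (B : ℕ → Finset (Finset ℕ)) (hF : B n ⊆ (range n).powerset)
    (hstep : ∀ l, L ≤ l → l < n → Step l (B (l + 1)) (B l)) (k : ℕ) :
    ∀ l, L ≤ l → l + k = n →
      (((B n).filter (fun X => X ∩ range l ∉ B l)).card : ℝ) ≤ 10 * (19 / 20) ^ l * 2 ^ n := by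
  induction k with
  | zero =>
    intro l _ h2
    have : l = n := by omega
    subst this
    have : (B l).filter (fun X => X ∩ range l ∉ B l) = ∅ := by
      rw [filter_eq_empty_iff]
      intro X hX
      rw [inter_eq_left.2 (mem_powerset.1 (hF hX))]
      simpa using hX
    rw [this, card_empty, Nat.cast_zero]
    positivity
  | succ k ih =>
    intro l h1 h2
    have h3 := ih (l + 1) (by omega) (by omega)
    have h4 := (hstep l h1 (by omega)).lost
    have h5 : (B n).filter (fun X => X ∩ range l ∉ B l) ⊆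
        (B n).filter (fun X => X ∩ range (l + 1) ∉ B (l + 1)) ∪
          (B n).filter (fun X => X ∩ range (l + 1) ∈
            (B (l + 1)).filter (fun Y => Y ∩ range l ∉ B l)) := by
      intro X hX
      obtain ⟨x1, x2⟩ := mem_filter.1 hX
      by_cases hc : X ∩ range (l + 1) ∈ B (l + 1)
      · refine mem_union_right _ (mem_filter.2 ⟨x1, mem_filter.2 ⟨hc, ?_⟩⟩)
        rwa [inter_assoc, inter_eq_right.2 (range_subset_range.2 (Nat.le_succ l))]
      · exact mem_union_left _ (mem_filter.2 ⟨x1, hc⟩)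
    have h6 := (card_le_card h5).trans (card_union_le _ _)
    have h7 := filter_trace_le hF (l + 1) ((B (l + 1)).filter (fun Y => Y ∩ range l ∉ B l))
    have h8 : n - (l + 1) = k := by omega
    rw [h8] at h7
    have h9 := h6.trans (Nat.add_le_add_left (h7.trans (Nat.mul_le_mul_right _ h4)) _)
    have h10 : (((B n).filter (fun X => X ∩ range l ∉ B l)).card : ℝ) ≤
        (((B n).filter (fun X => X ∩ range (l + 1) ∉ B (l + 1))).card : ℝ) + DD l * 2 ^ k := by
      exact_mod_cast h9
    have h11 := DD_le l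
    have h12 : (2 : ℝ) ^ n = 2 ^ l * 2 * 2 ^ k := by
      rw [← h2]; ring
    have h13 : ((19 : ℝ) / 10) ^ l = (19 / 20) ^ l * 2 ^ l := by
      rw [← mul_pow]; norm_num
    have h14 : (DD l : ℝ) * 2 ^ k ≤ (19 / 20) ^ l * 2 ^ l * 2 ^ k := by
      rw [← h13]; exact mul_le_mul_of_nonneg_right h11 (by positivity)
    rw [pow_succ, h12] at h3
    rw [h12]
    have h15 : (0 : ℝ) ≤ (19 / 20) ^ l * 2 ^ l * 2 ^ k := by positivity
    nlinarith

end Pool.Agent.H371Z.Inc
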