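import Pool.Agent.H371Z.Inc.Upper

set_option autoImplicit false

/-! The lower bounds and the limits. -/

namespace Pool.Agent.H371Z.Inc

open Finset Filter Topology

theorem cb_sq (k : ℕ) : Nat.centralBinom k ^ 2 * (2 * k + 1) ≤ 16 ^ k := by
  induction k with
  | zero => simp
  | succ k ih =>
    have h := Nat.succ_mul_centralBinom_succ k
    have h1 : (k + 1) ^ 2 * (Nat.centralBinom (k + 1) ^ 2 * (2 * (k + 1) + 1)) ≤
        (k + 1) ^ 2 * 16 ^ (k + 1) := by
      calc (k + 1) ^ 2 * (Nat.centralBinom (k + 1) ^ 2 * (2 * (k + 1) + 1))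
          = ((k + 1) * Nat.centralBinom (k + 1)) ^ 2 * (2 * k + 3) := by ring
        _ = (Nat.centralBinom k ^ 2 * (2 * k + 1)) * (4 * ((2 * k + 1) * (2 * k + 3))) := by
            rw [h]; ring
        _ ≤ 16 ^ k * (4 * ((2 * k + 1) * (2 * k + 3))) := Nat.mul_le_mul_right _ ih
        _ ≤ 16 ^ k * (16 * (k + 1) ^ 2) := Nat.mul_le_mul_left _ (by nlinarith)
        _ = (k + 1) ^ 2 * 16 ^ (k + 1) := by ring
    exact Nat.le_of_mul_le_mul_left h1 (by positivity)

theorem mid_le (m : ℕ) : m.choose (m / 2) ≤ 2 * Nat.centralBinom (m / 2) := by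
  rcases Nat.even_or_odd' m with ⟨k, rfl | rfl⟩
  · have : 2 * k / 2 = k := by omega
    rw [this, Nat.centralBinom_eq_two_mul_choose]
    omega
  · have : (2 * k + 1) / 2 = k := by omega
    rw [this, ← Nat.choose_symm_half, Nat.choose_succ_succ]
    have h1 := Nat.choose_le_centralBinom k k
    have h2 := Nat.choose_le_centralBinom (k + 1) k
    simp only [Nat.succ_eq_add_one] at *
    omega

theorem mid_tendsto : Tendsto (fun m : ℕ => (m.choose (m / 2) : ℝ) / 2 ^ m) atTop (𝓝 0) := by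
  have h1 : Tendsto (fun m : ℕ => Real.sqrt (4 / (m : ℝ))) atTop (𝓝 0) := by
    have := (tendsto_const_div_atTop_nhds_zero_nat (4 : ℝ)).sqrt
    rwa [Real.sqrt_zero] at this
  refine tendsto_of_tendsto_of_tendsto_of_le_of_le' tendsto_const_nhds h1
    (Eventually.of_forall (fun m => by positivity)) ?_
  filter_upwards [eventually_ge_atTop 1] with m hm
  apply Real.le_sqrt_of_sq_le
  have h2 : m.choose (m / 2) ^ 2 * m ≤ 4 * (2 ^ m) ^ 2 := by
    have h3 := mid_le m
    have h4 := cb_sq (m / 2)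
    have h5 : 16 ^ (m / 2) ≤ (2 ^ m) ^ 2 := by
      rw [← pow_mul, show (16 : ℕ) = 2 ^ 4 by norm_num, ← pow_mul]
      exact Nat.pow_le_pow_right (by norm_num) (by omega)
    calc m.choose (m / 2) ^ 2 * m ≤ (2 * Nat.centralBinom (m / 2)) ^ 2 * (2 * (m / 2) + 1) :=
          Nat.mul_le_mul (Nat.pow_le_pow_left h3 2) (by omega)
      _ = 4 * (Nat.centralBinom (m / 2) ^ 2 * (2 * (m / 2) + 1)) := by ring
      _ ≤ 4 * (2 ^ m) ^ 2 := Nat.mul_le_mul_left _ (h4.trans h5)
  have hm' : (0 : ℝ) < m := by exact_mod_cast hm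
  rw [div_pow, div_le_div_iff₀ (by positivity) hm']
  exact_mod_cast h2

/-- The family of large subsets. -/
def Kat (W : Finset ℕ) (t : ℕ) : Finset (Finset ℕ) :=
  W.powerset.filter (fun X => W.card + t ≤ 2 * X.card)

theorem Kat_int (W : Finset ℕ) (t : ℕ) : TInt t (Kat W t) := by
  intro X hX Y hY
  obtain ⟨x1, x2⟩ := mem_filter.1 hX
  obtain ⟨y1, y2⟩ := mem_filter.1 hY
  have h1 := card_union_add_card_inter X Y
  have h2 := card_le_card (union_subset (mem_powerset.1 x1) (mem_powerset.1 y1))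
  omega

theorem Kat_card (W : Finset ℕ) (t : ℕ) :
    2 ^ W.card ≤ 2 * (Kat W t).card + (t + 1) * W.card.choose (W.card / 2) := by
  have h1 : W.powerset ⊆ (Kat W t ∪ (Kat W t).image (fun X => W \ X)) ∪
      (Ico ((W.card - t) / 2) ((W.card - t) / 2 + (t + 1))).biUnion
        (fun k => powersetCard k W) := by
    intro X hX
    have hXW := mem_powerset.1 hX
    have hc := card_sdiff_add_card_eq_card hXW
    by_cases c1 : W.card + t ≤ 2 * X.card
    · exact mem_union_left _ (mem_union_left _ (mem_filter.2 ⟨hX, c1⟩))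
    by_cases c2 : W.card + t ≤ 2 * (W \ X).card
    · refine mem_union_left _ (mem_union_right _ (mem_image.2 ⟨W \ X, ?_, ?_⟩))
      · exact mem_filter.2 ⟨mem_powerset.2 sdiff_subset, c2⟩
      · exact Finset.sdiff_sdiff_eq_self hXW
    · refine mem_union_right _ (mem_biUnion.2 ⟨X.card, mem_Ico.2 ⟨by omega, by omega⟩, ?_⟩)
      exact mem_powersetCard.2 ⟨hXW, rfl⟩
  have h2 := card_le_card h1
  rw [card_powerset] at h2
  have h3 := card_union_le (Kat W t ∪ (Kat W t).image (fun X => W \ X))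
    ((Ico ((W.card - t) / 2) ((W.card - t) / 2 + (t + 1))).biUnion (fun k => powersetCard k W))
  have h4 := card_union_le (Kat W t) ((Kat W t).image (fun X => W \ X))
  have h5 : ((Kat W t).image (fun X => W \ X)).card ≤ (Kat W t).card := card_image_le
  have h6 : ((Ico ((W.card - t) / 2) ((W.card - t) / 2 + (t + 1))).biUnion
      (fun k => powersetCard k W)).card ≤ (t + 1) * W.card.choose (W.card / 2) := by
    refine card_biUnion_le.trans ?_
    calc ∑ k ∈ Ico ((W.card - t) / 2) ((W.card - t) / 2 + (t + 1)), (powersetCard k W).card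
        ≤ ∑ k ∈ Ico ((W.card - t) / 2) ((W.card - t) / 2 + (t + 1)),
          W.card.choose (W.card / 2) := by
          apply sum_le_sum
          intro k _
          rw [card_powersetCard]
          exact Nat.choose_le_middle k _
      _ = (t + 1) * W.card.choose (W.card / 2) := by
          rw [sum_const, Nat.card_Ico, smul_eq_mul]
          congr 1
          omega
  omega

/-- Product of a family on the first coordinates with a family on the others. -/
theorem exists_prod (L n : ℕ) (hLn : L ≤ n) (C K : Finset (Finset ℕ))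
    (hC : C ⊆ (range L).powerset) (hK : K ⊆ (Ico L n).powerset) :
    ∃ F : Finset (Finset ℕ), F ⊆ (range n).powerset ∧ F.card = C.card * K.card ∧
      ∀ X ∈ F, (∃ c ∈ C, c ⊆ X) ∧ ∃ k ∈ K, k ⊆ X := by
  refine ⟨(C ×ˢ K).image (fun p => p.1 ∪ p.2), ?_, ?_, ?_⟩
  · intro X hX
    obtain ⟨p, hp, rfl⟩ := mem_image.1 hX
    obtain ⟨p1, p2⟩ := mem_product.1 hp
    rw [mem_powerset]
    apply union_subset
    · exact (mem_powerset.1 (hC p1)).trans (range_subset_range.2 hLn)
    · intro a ha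
      exact mem_range.2 (mem_Ico.1 (mem_powerset.1 (hK p2) ha)).2
  · rw [card_image_of_injOn, card_product]
    intro p hp q hq h
    obtain ⟨p1, p2⟩ := mem_product.1 (mem_coe.1 hp)
    obtain ⟨q1, q2⟩ := mem_product.1 (mem_coe.1 hq)
    have a1 : ∀ a ∈ p.1, a < L := fun a ha => mem_range.1 (mem_powerset.1 (hC p1) ha)
    have a2 : ∀ a ∈ q.1, a < L := fun a ha => mem_range.1 (mem_powerset.1 (hC q1) ha)
    have a3 : ∀ a ∈ p.2, L ≤ a := fun a ha => (mem_Ico.1 (mem_powerset.1 (hK p2) ha)).1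
    have a4 : ∀ a ∈ q.2, L ≤ a := fun a ha => (mem_Ico.1 (mem_powerset.1 (hK q2) ha)).1
    have h' : ∀ a, (a ∈ p.1 ∨ a ∈ p.2) ↔ (a ∈ q.1 ∨ a ∈ q.2) := by
      intro a
      have := congrArg (fun Z => a ∈ Z) h
      simpa using this
    apply Prod.ext
    · ext a
      constructor
      · intro ha
        rcases (h' a).1 (Or.inl ha) with h1 | h1
        · exact h1
        · have := a1 a ha; have := a4 a h1; omega
      · intro ha
        rcases (h' a).2 (Or.inl ha) with h1 | h1
        · exact h1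
        · have := a2 a ha; have := a3 a h1; omega
    · ext a
      constructor
      · intro ha
        rcases (h' a).1 (Or.inr ha) with h1 | h1
        · have := a2 a h1; have := a3 a ha; omega
        · exact h1
      · intro ha
        rcases (h' a).2 (Or.inr ha) with h1 | h1
        · have := a1 a h1; have := a4 a ha; omega
        · exact h1
  · intro X hX
    obtain ⟨p, hp, rfl⟩ := mem_image.1 hX
    obtain ⟨p1, p2⟩ := mem_product.1 hp
    exact ⟨⟨p.1, p1, subset_union_left⟩, ⟨p.2, p2, subset_union_right⟩⟩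

theorem W3_of_cover (s : ℕ) (C F : Finset (Finset ℕ)) (hC : W3 s C)
    (h : ∀ X ∈ F, ∃ c ∈ C, c ⊆ X) : W3 s F := by
  intro A hA B hB D hD
  obtain ⟨A', a1, a2⟩ := h A hA
  obtain ⟨B', b1, b2⟩ := h B hB
  obtain ⟨D', c1, c2⟩ := h D hD
  exact (hC A' a1 B' b1 D' c1).trans
    (card_le_card (inter_subset_inter (inter_subset_inter a2 b2) c2))

theorem TInt_of_cover (t : ℕ) (C F : Finset (Finset ℕ)) (hC : TInt t C)
    (h : ∀ X ∈ F, ∃ c ∈ C, c ⊆ X) : TInt t F := by
  intro A hA B hB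
  obtain ⟨A', a1, a2⟩ := h A hA
  obtain ⟨B', b1, b2⟩ := h B hB
  exact (hC A' a1 B' b1).trans (card_le_card (inter_subset_inter a2 b2))

theorem W3_empty (s : ℕ) : W3 s ∅ := fun _ h => absurd h (notMem_empty _)

theorem TInt_empty (t : ℕ) : TInt t ∅ := fun _ h => absurd h (notMem_empty _)

theorem aa_eq (s L : ℕ) (hs : 1 ≤ s) (hL : 20 * s ≤ L) (n : ℕ) (hn : L ≤ n) :
    aa s n = aa s L := by
  have h1 : maxCard n (W3 s) = maxCard L (W3 s) * 2 ^ (n - L) := by
    apply le_antisymm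
    · obtain ⟨F, f1, f2, f3⟩ := exists_maxCard n (W3 s) (W3_empty s)
      have e : n = L + (n - L) := by omega
      rw [← f3]
      exact upper3 s L hs hL (n - L) F (e ▸ f1) f2
    · obtain ⟨C, c1, c2, c3⟩ := exists_maxCard L (W3 s) (W3_empty s)
      obtain ⟨F, f1, f2, f3⟩ := exists_prod L n hn C (Ico L n).powerset c1 (Subset.refl _)
      rw [card_powerset, Nat.card_Ico, c3] at f2
      rw [← f2]
      exact le_maxCard f1 (W3_of_cover s C F c2 (fun X hX => (f3 X hX).1))
  unfold aa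
  rw [h1]
  have h2 : (2 : ℝ) ^ n = 2 ^ L * 2 ^ (n - L) := by
    rw [← pow_add]; congr 1; omega
  rw [h2]
  push_cast
  field_simp

theorem err_tendsto (t L : ℕ) : Tendsto (fun n : ℕ =>
    1 / 2 - ((t : ℝ) + 1) / 2 * (((n - L).choose ((n - L) / 2) : ℝ) / 2 ^ (n - L))) atTop
      (𝓝 (1 / 2)) := by
  have h1 := (mid_tendsto.comp (tendsto_sub_atTop_nat L)).const_mul (((t : ℝ) + 1) / 2)
  have h2 := h1.const_sub (1 / 2)
  simpa using h2

theorem kat_real (W : Finset ℕ) (t : ℕ) :
    1 / 2 - ((t : ℝ) + 1) / 2 * ((W.card.choose (W.card / 2) : ℝ) / 2 ^ W.card) ≤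
      ((Kat W t).card : ℝ) / 2 ^ W.card := by
  have h1 : (2 : ℝ) ^ W.card ≤ 2 * (Kat W t).card + (t + 1) * W.card.choose (W.card / 2) := by
    exact_mod_cast Kat_card W t
  have h2 : (0 : ℝ) < 2 ^ W.card := by positivity
  rw [le_div_iff₀ h2, sub_mul, mul_assoc, div_mul_cancel₀ _ h2.ne']
  linarith

theorem bb_tendsto (t : ℕ) (ht : 1 ≤ t) : Tendsto (fun n => bb t n) atTop (𝓝 (1 / 2)) := by
  refine tendsto_of_tendsto_of_tendsto_of_le_of_le (err_tendsto t 0) tendsto_const_nhds ?_ ?_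
  · intro n
    have h1 := kat_real (range n) t
    rw [card_range] at h1
    simp only [Nat.sub_zero]
    refine h1.trans ?_
    unfold bb
    apply div_le_div_of_nonneg_right _ (by positivity)
    exact_mod_cast le_maxCard (filter_subset _ _) (Kat_int (range n) t)
  · intro n
    obtain ⟨F, f1, f2, f3⟩ := exists_maxCard n (TInt t) (TInt_empty t)
    have h1 := cross_card (range n) F F f1 f1 (fun x hx y hy =>
      card_pos.1 (by have := f2 x hx y hy; omega))
    rw [card_range, f3] at h1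
    have h2 : (maxCard n (TInt t) : ℝ) + maxCard n (TInt t) ≤ 2 ^ n := by exact_mod_cast h1
    unfold bb
    simp only
    rw [div_le_iff₀ (by positivity)]
    linarith

theorem cc_tendsto (s : ℕ) (hs : 1 ≤ s) : ∃ t0 : ℕ, ∀ t, t0 ≤ t →
    Tendsto (fun n => cc s t n) atTop (𝓝 (aa s (20 * s) * (1 / 2))) := by
  set L := 20 * s with hL
  obtain ⟨t0, h0⟩ := upper s L hs le_rfl
  refine ⟨t0, fun t ht => ?_⟩
  refine tendsto_of_tendsto_of_tendsto_of_le_of_le'
    ((err_tendsto t L).const_mul (aa s L)) tendsto_const_nhds ?_ ?_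
  · filter_upwards [eventually_ge_atTop L] with n hn
    obtain ⟨C, c1, c2, c3⟩ := exists_maxCard L (W3 s) (W3_empty s)
    obtain ⟨F, f1, f2, f3⟩ := exists_prod L n hn C (Kat (Ico L n) t) c1 (filter_subset _ _)
    have h1 := kat_real (Ico L n) t
    rw [Nat.card_Ico] at h1
    have h2 : F.card ≤ maxCard n (fun F => W3 s F ∧ TInt t F) :=
      le_maxCard f1 ⟨W3_of_cover s C F c2 (fun X hX => (f3 X hX).1),
        TInt_of_cover t _ F (Kat_int _ t) (fun X hX => (f3 X hX).2)⟩
    rw [f2, c3] at h2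
    have h3 : (maxCard L (W3 s) : ℝ) * (Kat (Ico L n) t).card ≤
        maxCard n (fun F => W3 s F ∧ TInt t F) := by exact_mod_cast h2
    have h4 : (2 : ℝ) ^ n = 2 ^ L * 2 ^ (n - L) := by
      rw [← pow_add]; congr 1; omega
    have h5 : 0 ≤ aa s L := by unfold aa; positivity
    refine (mul_le_mul_of_nonneg_left h1 h5).trans ?_
    unfold aa cc
    rw [h4, div_mul_div_comm]
    exact div_le_div_of_nonneg_right h3 (by positivity)
  · filter_upwards [eventually_ge_atTop L] with n hn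
    obtain ⟨F, f1, f2, f3⟩ := exists_maxCard n (fun F => W3 s F ∧ TInt t F)
      ⟨W3_empty s, TInt_empty t⟩
    have h1 := h0 t ht n hn F f1 f2.1 f2.2
    rw [f3] at h1
    have h2 : 2 * (maxCard n (fun F => W3 s F ∧ TInt t F) : ℝ) ≤
        maxCard L (W3 s) * 2 ^ (n - L) := by exact_mod_cast h1
    have h4 : (2 : ℝ) ^ n = 2 ^ L * 2 ^ (n - L) := by
      rw [← pow_add]; congr 1; omega
    unfold aa cc
    rw [h4, div_le_iff₀ (by positivity)]
    have h5 : (maxCard L (W3 s) : ℝ) / 2 ^ L * (1 / 2) * (2 ^ L * 2 ^ (n - L)) =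
        (maxCard L (W3 s) * 2 ^ (n - L)) / 2 := by
      field_simp
    rw [h5]
    linarith

theorem main (s : ℕ) (hs : 1 ≤ s) : ∃ t0 : ℕ, ∀ t : ℕ, t0 ≤ t →
    liminf (fun n : ℕ => aa s n * bb t n) atTop = liminf (fun n : ℕ => cc s t n) atTop := by
  obtain ⟨t0, h0⟩ := cc_tendsto s hs
  refine ⟨t0 + 1, fun t ht => ?_⟩
  have h1 : Tendsto (fun n : ℕ => aa s n) atTop (𝓝 (aa s (20 * s))) := by
    refine tendsto_const_nhds.congr' ?_
    filter_upwards [eventually_ge_atTop (20 * s)] with n hn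
    exact (aa_eq s (20 * s) hs le_rfl n hn).symm
  rw [(h1.mul (bb_tendsto t (by omega))).liminf_eq, (h0 t (by omega)).liminf_eq]

end Pool.Agent.H371Z.Inc
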