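import Pool.Agent.H371Z.Inc.Shift

set_option autoImplicit false

/-! Removing the last coordinate of a shifted 3-wise intersecting family. -/

namespace Pool.Agent.H371Z.Inc

open Finset

/-- Members avoiding `N`. -/
def B0 (N : ℕ) (B : Finset (Finset ℕ)) : Finset (Finset ℕ) := B.filter (fun X => N ∉ X)

/-- Sets that are members after adding `N`. -/
def B1 (N : ℕ) (B : Finset (Finset ℕ)) : Finset (Finset ℕ) :=
  (range N).powerset.filter (fun X => insert N X ∈ B)

/-- The number of dense subsets. -/
def DD (N : ℕ) : ℕ := ((range N).powerset.filter (fun X => 2 * N ≤ 3 * X.card)).card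

theorem mem_B0 {N : ℕ} {B : Finset (Finset ℕ)} {X : Finset ℕ} : X ∈ B0 N B ↔ X ∈ B ∧ N ∉ X :=
  mem_filter

theorem mem_B1 {N : ℕ} {B : Finset (Finset ℕ)} {X : Finset ℕ} :
    X ∈ B1 N B ↔ X ⊆ range N ∧ insert N X ∈ B := by
  unfold B1; rw [mem_filter, mem_powerset]

theorem sub_range_of {N : ℕ} {X : Finset ℕ} (h : X ⊆ range (N + 1)) (hN : N ∉ X) :
    X ⊆ range N := by
  intro a ha
  have := mem_range.1 (h ha)
  have : a ≠ N := fun e => hN (e ▸ ha)
  exact mem_range.2 (by omega)

theorem ins_sub {N : ℕ} {X : Finset ℕ} (h : X ⊆ range N) : insert N X ⊆ range (N + 1) := by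
  intro a ha
  rcases mem_insert.1 ha with rfl | ha
  · exact mem_range.2 (by omega)
  · have := mem_range.1 (h ha)
    exact mem_range.2 (by omega)

theorem not_mem_of {N : ℕ} {X : Finset ℕ} (h : X ⊆ range N) : N ∉ X := fun hh => by
  have := mem_range.1 (h hh)
  omega

section
variable {N s : ℕ} {B : Finset (Finset ℕ)}

theorem B0_sub (hB : Good (N + 1) B) : B0 N B ⊆ B1 N B := by
  intro X hX
  obtain ⟨h1, h2⟩ := mem_B0.1 hX
  have h3 := sub_range_of (mem_powerset.1 (hB.sub h1)) h2
  exact mem_B1.2 ⟨h3, hB.up X h1 _ (ins_sub h3) (subset_insert _ _)⟩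

theorem card_B01 (hB : Good (N + 1) B) : B.card = (B0 N B).card + (B1 N B).card := by
  have h1 := card_filter_add_card_filter_not (s := B) (fun X => N ∉ X)
  have h2 : (B.filter (fun X => ¬ N ∉ X)).card = (B1 N B).card := by
    symm
    apply card_bij (fun X _ => insert N X)
    · intro X hX
      exact mem_filter.2 ⟨(mem_B1.1 hX).2, by simp⟩
    · intro X hX Y hY h
      have a1 := not_mem_of (mem_B1.1 hX).1
      have a2 := not_mem_of (mem_B1.1 hY).1
      rw [← erase_insert a1, ← erase_insert a2, h]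
    · intro Y hY
      obtain ⟨y1, y2⟩ := mem_filter.1 hY
      have y3 : N ∈ Y := by simpa using y2
      refine ⟨Y.erase N, mem_B1.2 ⟨?_, ?_⟩, insert_erase y3⟩
      · exact sub_range_of ((erase_subset _ _).trans (mem_powerset.1 (hB.sub y1))) (by simp)
      · rw [insert_erase y3]; exact y1
  unfold B0 at *
  omega

theorem down_mem (hB : Good (N + 1) B) {x : Finset ℕ} (hx : x ∈ B1 N B) {i : ℕ} (hi : i < N)
    (hix : i ∉ x) : insert i x ∈ B := by
  obtain ⟨h1, h2⟩ := mem_B1.1 hx
  have h3 := hB.shift _ h2 i N hi (mem_insert_self _ _) (by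
    simp only [mem_insert, not_or]; exact ⟨by omega, hix⟩)
  rwa [erase_insert (not_mem_of h1)] at h3

theorem conf_a (hW : W3 s B) {x y z : Finset ℕ} (hx : x ∈ B0 N B) (hy : y ∈ B1 N B)
    (hz : z ∈ B1 N B) : s ≤ (x ∩ y ∩ z).card := by
  obtain ⟨x1, x2⟩ := mem_B0.1 hx
  have h := hW x x1 _ (mem_B1.1 hy).2 _ (mem_B1.1 hz).2
  refine h.trans (card_le_card ?_)
  intro a ha
  simp only [mem_inter, mem_insert] at ha ⊢
  obtain ⟨⟨a1, a2⟩, a3⟩ := ha
  have : a ≠ N := fun e => x2 (e ▸ a1)
  tauto

theorem conf_b (hB : Good (N + 1) B) (hW : W3 s B) {x y z : Finset ℕ} (hx : x ∈ B1 N B)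
    (hy : y ∈ B1 N B) (hz : z ∈ B1 N B) {i : ℕ} (hi : i < N) (hix : i ∉ x) (hiy : i ∉ y) :
    s ≤ (x ∩ y ∩ z).card := by
  have h1 : insert i x ∈ B0 N B := by
    refine mem_B0.2 ⟨down_mem hB hx hi hix, ?_⟩
    have := not_mem_of (mem_B1.1 hx).1
    simp only [mem_insert, not_or]
    exact ⟨by omega, this⟩
  refine (conf_a hW h1 hy hz).trans (card_le_card ?_)
  intro a ha
  simp only [mem_inter, mem_insert] at ha ⊢
  obtain ⟨⟨a1, a2⟩, a3⟩ := ha
  have : a ≠ i := fun e => hiy (e ▸ a2)
  tauto

theorem conf_c (hB : Good (N + 1) B) (hW : W3 s B) {x y z : Finset ℕ} (hx : x ∈ B1 N B)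
    (hy : y ∈ B1 N B) (hz : z ∈ B1 N B) (hc : (x ∩ y ∩ z).card < s) :
    x.card + y.card + z.card + 1 = 2 * N + s := by
  have h1 : s ≤ (x ∩ y ∩ z).card + 1 := by
    have h := hW _ (mem_B1.1 hx).2 _ (mem_B1.1 hy).2 _ (mem_B1.1 hz).2
    refine h.trans ((card_le_card ?_).trans (card_insert_le N _))
    intro a ha
    simp only [mem_inter, mem_insert] at ha ⊢
    tauto
  have hxy : x ∪ y = range N := by
    apply Subset.antisymm (union_subset (mem_B1.1 hx).1 (mem_B1.1 hy).1)
    intro i hi
    by_contra hh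
    simp only [mem_union, not_or] at hh
    have := conf_b hB hW hx hy hz (mem_range.1 hi) hh.1 hh.2
    omega
  have hxyz : (x ∩ y) ∪ z = range N := by
    apply Subset.antisymm (union_subset (inter_subset_left.trans (mem_B1.1 hx).1) (mem_B1.1 hz).1)
    intro i hi
    by_contra hh
    simp only [mem_union, mem_inter, not_or, not_and_or] at hh
    rcases hh with ⟨h2 | h2, h3⟩
    · have := conf_b hB hW hx hz hy (mem_range.1 hi) h2 h3
      rw [inter_right_comm] at this
      omega
    · have := conf_b hB hW hy hz hx (mem_range.1 hi) h2 h3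
      rw [inter_comm, ← inter_assoc] at this
      omega
  have e1 := card_union_add_card_inter x y
  have e2 := card_union_add_card_inter (x ∩ y) z
  rw [hxy, card_range] at e1
  rw [hxyz, card_range] at e2
  omega

/-- promoting a conflict-free set -/
theorem W3_promote (hB : Good (N + 1) B) (hW : W3 s B) (P : Finset (Finset ℕ))
    (hP : P ⊆ B1 N B) (hf : W3 s P) : W3 s (B0 N B ∪ P) := by
  have hsub : B0 N B ∪ P ⊆ B1 N B := union_subset (B0_sub hB) hP
  intro x hx y hy z hz
  rcases mem_union.1 hx with x1 | x1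
  · exact conf_a hW x1 (hsub hy) (hsub hz)
  rcases mem_union.1 hy with y1 | y1
  · rw [inter_comm x]; exact conf_a hW y1 (hsub hx) (hsub hz)
  rcases mem_union.1 hz with z1 | z1
  · rw [inter_comm, ← inter_assoc]; exact conf_a hW z1 (hsub hx) (hsub hy)
  exact hf x x1 y y1 z z1

/-- averaging over pairs -/
theorem exists_pair (N a : ℕ) (ha : 2 * (a * a) < N * N - N)
    (Mid : Finset (Finset ℕ)) (hM : ∀ x ∈ Mid, x ⊆ range N ∧ x.card = a) (hne : Mid.Nonempty) :
    ∃ i j, i < N ∧ j < N ∧ Mid.card < 2 * (Mid.filter (fun x => i ∉ x ∨ j ∉ x)).card := by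
  by_contra hc
  push Not at hc
  have h1 : ∀ p ∈ (range N).offDiag,
      Mid.card ≤ 2 * (Mid.filter (fun x => p.1 ∈ x ∧ p.2 ∈ x)).card := by
    intro p hp
    obtain ⟨p1, p2, _⟩ := mem_offDiag.1 hp
    have h2 := hc p.1 p.2 (mem_range.1 p1) (mem_range.1 p2)
    have h3 := card_filter_add_card_filter_not (s := Mid) (fun x => p.1 ∈ x ∧ p.2 ∈ x)
    have h4 : Mid.filter (fun x => ¬ (p.1 ∈ x ∧ p.2 ∈ x)) =
        Mid.filter (fun x => p.1 ∉ x ∨ p.2 ∉ x) := by
      apply filter_congr; intro x _; tauto
    rw [h4] at h3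
    omega
  have h2 := sum_le_sum h1
  rw [sum_const, offDiag_card, card_range, smul_eq_mul, ← mul_sum] at h2
  have h3 : ∑ p ∈ (range N).offDiag, (Mid.filter (fun x => p.1 ∈ x ∧ p.2 ∈ x)).card
      ≤ Mid.card * (a * a) := by
    have e : ∀ p ∈ (range N).offDiag, (Mid.filter (fun x => p.1 ∈ x ∧ p.2 ∈ x)).card =
        ∑ x ∈ Mid, if p.1 ∈ x ∧ p.2 ∈ x then 1 else 0 := by
      intro p _; rw [card_filter]
    rw [sum_congr rfl e, sum_comm, ← smul_eq_mul, ← sum_const]
    apply sum_le_sum
    intro x hx
    rw [← card_filter, ← (hM x hx).2, ← card_product]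
    apply card_le_card
    intro p hp
    exact mem_product.2 (mem_filter.1 hp).2
  have h4 : 0 < Mid.card := card_pos.2 hne
  have h5 : (N * N - N) * Mid.card ≤ (2 * (a * a)) * Mid.card := by nlinarith
  have h6 := Nat.le_of_mul_le_mul_right h5 h4
  omega

theorem exists_free (hs : 1 ≤ s) (hN : 20 * s ≤ N) (hB : Good (N + 1) B) (hW : W3 s B)
    (hne : (B1 N B \ B0 N B).Nonempty) :
    ∃ P, P ⊆ B1 N B \ B0 N B ∧ W3 s P ∧ (B1 N B \ B0 N B).card < 2 * P.card := by
  set S := B1 N B \ B0 N B with hS
  have hS1 : S ⊆ B1 N B := sdiff_subset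
  set Hi := S.filter (fun x => 2 * N + s < 3 * x.card + 1) with hHi
  set Lo := S.filter (fun x => 3 * x.card + 1 < 2 * N + s) with hLo
  set Mid := S.filter (fun x => 3 * x.card + 1 = 2 * N + s) with hMid
  have hcard : S.card = Hi.card + Lo.card + Mid.card := by
    have e1 := card_filter_add_card_filter_not (s := S) (fun x => 2 * N + s < 3 * x.card + 1)
    have e2 := card_filter_add_card_filter_not
      (s := S.filter (fun x => ¬ 2 * N + s < 3 * x.card + 1)) (fun x => 3 * x.card + 1 < 2 * N + s)
    rw [filter_filter, filter_filter] at e2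
    have e3 : S.filter (fun x => ¬ 2 * N + s < 3 * x.card + 1 ∧ 3 * x.card + 1 < 2 * N + s) = Lo := by
      apply filter_congr; intro x _; omega
    have e4 : S.filter (fun x => ¬ 2 * N + s < 3 * x.card + 1 ∧ ¬ 3 * x.card + 1 < 2 * N + s)
        = Mid := by
      apply filter_congr; intro x _; omega
    rw [e3, e4] at e2
    rw [← hHi] at e1
    omega
  by_cases hm : Mid.Nonempty
  · obtain ⟨x0, hx0⟩ := hm
    have ha0 := (mem_filter.1 hx0).2
    obtain ⟨i, j, hi, hj, hij⟩ := exists_pair N x0.card (by
        have h1 : N ≤ N * N := Nat.le_mul_self N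
        have h2 : 60 * x0.card ≤ 41 * N := by omega
        have h3 : (60 * x0.card) * (60 * x0.card) ≤ (41 * N) * (41 * N) := Nat.mul_le_mul h2 h2
        have h4 : 20 * N ≤ N * N := Nat.mul_le_mul_right N (by omega)
        have h5 : 0 < N * N := by nlinarith
        have h6 : 2 * (x0.card * x0.card) + N < N * N := by nlinarith
        omega) Mid
      (fun x hx => ⟨(mem_B1.1 (hS1 (mem_filter.1 hx).1)).1, by
        have := (mem_filter.1 hx).2
        omega⟩) ⟨x0, hx0⟩
    set Q := Mid.filter (fun x => i ∉ x ∨ j ∉ x) with hQ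
    have hQS : Q ⊆ S := (filter_subset _ _).trans (filter_subset _ _)
    have hQfree : ∀ x ∈ Q, ∀ y ∈ Q, ∀ z ∈ Q, s ≤ (x ∩ y ∩ z).card := by
      intro x hx y hy z hz
      have x1 := hS1 (hQS hx)
      have y1 := hS1 (hQS hy)
      have z1 := hS1 (hQS hz)
      have k1 : ∀ k, k < N → k ∉ x → k ∉ z → s ≤ (x ∩ y ∩ z).card := by
        intro k hk a b
        rw [inter_right_comm]; exact conf_b hB hW x1 z1 y1 hk a b
      have k2 : ∀ k, k < N → k ∉ y → k ∉ z → s ≤ (x ∩ y ∩ z).card := by
        intro k hk a b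
        have := conf_b hB hW y1 z1 x1 hk a b
        rwa [inter_comm, ← inter_assoc] at this
      rcases (mem_filter.1 hx).2 with a | a <;> rcases (mem_filter.1 hy).2 with b | b <;>
        rcases (mem_filter.1 hz).2 with c | c
      · exact conf_b hB hW x1 y1 z1 hi a b
      · exact conf_b hB hW x1 y1 z1 hi a b
      · exact k1 i hi a c
      · exact k2 j hj b c
      · exact k2 i hi b c
      · exact k1 j hj a c
      · exact conf_b hB hW x1 y1 z1 hj a b
      · exact conf_b hB hW x1 y1 z1 hj a b
    have hQsize : ∀ x ∈ Q, 3 * x.card + 1 = 2 * N + s :=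
      fun x hx => (mem_filter.1 (mem_filter.1 hx).1).2
    rcases le_total Hi.card Lo.card with hl | hl
    · have hdis : Disjoint Lo Q := by
        rw [disjoint_left]
        intro x h1 h2
        have := (mem_filter.1 h1).2
        have := hQsize x h2
        omega
      refine ⟨Lo ∪ Q, union_subset (filter_subset _ _) hQS, ?_, ?_⟩
      · intro x hx y hy z hz
        by_contra hc
        have hsub : Lo ∪ Q ⊆ B1 N B := (union_subset (filter_subset _ _) hQS).trans hS1
        have h1 := conf_c hB hW (hsub hx) (hsub hy) (hsub hz) (by omega)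
        have g : ∀ w ∈ Lo ∪ Q, 3 * w.card + 1 < 2 * N + s ∨
            (3 * w.card + 1 = 2 * N + s ∧ w ∈ Q) := by
          intro w hw
          rcases mem_union.1 hw with h | h
          · exact Or.inl (mem_filter.1 h).2
          · exact Or.inr ⟨hQsize w h, h⟩
        rcases g x hx with a | ⟨a, a'⟩ <;> rcases g y hy with b | ⟨b, b'⟩ <;>
          rcases g z hz with c | ⟨c, c'⟩
        all_goals first | omega | exact hc (hQfree x a' y b' z c')
      · rw [card_union_of_disjoint hdis]; omega
    · have hdis : Disjoint Hi Q := by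
        rw [disjoint_left]
        intro x h1 h2
        have := (mem_filter.1 h1).2
        have := hQsize x h2
        omega
      refine ⟨Hi ∪ Q, union_subset (filter_subset _ _) hQS, ?_, ?_⟩
      · intro x hx y hy z hz
        by_contra hc
        have hsub : Hi ∪ Q ⊆ B1 N B := (union_subset (filter_subset _ _) hQS).trans hS1
        have h1 := conf_c hB hW (hsub hx) (hsub hy) (hsub hz) (by omega)
        have g : ∀ w ∈ Hi ∪ Q, 2 * N + s < 3 * w.card + 1 ∨
            (3 * w.card + 1 = 2 * N + s ∧ w ∈ Q) := by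
          intro w hw
          rcases mem_union.1 hw with h | h
          · exact Or.inl (mem_filter.1 h).2
          · exact Or.inr ⟨hQsize w h, h⟩
        rcases g x hx with a | ⟨a, a'⟩ <;> rcases g y hy with b | ⟨b, b'⟩ <;>
          rcases g z hz with c | ⟨c, c'⟩
        all_goals first | omega | exact hc (hQfree x a' y b' z c')
      · rw [card_union_of_disjoint hdis]; omega
  · have hm0 : Mid.card = 0 := by
      rw [not_nonempty_iff_eq_empty] at hm
      rw [hm, card_empty]
    have hLoW : W3 s Lo := by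
      intro x hx y hy z hz
      by_contra hc
      have h1 := conf_c hB hW (hS1 (mem_filter.1 hx).1) (hS1 (mem_filter.1 hy).1)
        (hS1 (mem_filter.1 hz).1) (by omega)
      have := (mem_filter.1 hx).2
      have := (mem_filter.1 hy).2
      have := (mem_filter.1 hz).2
      omega
    have hHiW : W3 s Hi := by
      intro x hx y hy z hz
      by_contra hc
      have h1 := conf_c hB hW (hS1 (mem_filter.1 hx).1) (hS1 (mem_filter.1 hy).1)
        (hS1 (mem_filter.1 hz).1) (by omega)
      have := (mem_filter.1 hx).2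
      have := (mem_filter.1 hy).2
      have := (mem_filter.1 hz).2
      omega
    rcases lt_trichotomy Hi.card Lo.card with hl | hl | hl
    · exact ⟨Lo, filter_subset _ _, hLoW, by omega⟩
    swap
    · exact ⟨Hi, filter_subset _ _, hHiW, by omega⟩
    have hSpos : 0 < S.card := card_pos.2 hne
    obtain ⟨h, hh, hmin⟩ := exists_min_image Hi Finset.card (card_pos.1 (by omega))
    obtain ⟨g, hg, hmax⟩ := exists_max_image Lo Finset.card (card_pos.1 (by omega))
    have hh1 := (mem_filter.1 hh).1
    have hh2 := (mem_filter.1 hh).2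
    have hg1 := (mem_filter.1 hg).1
    have hg2 := (mem_filter.1 hg).2
    have hgN : ∃ i, i < N ∧ i ∉ g := by
      by_contra hc
      push Not at hc
      have : range N ⊆ g := fun i hi => hc i (mem_range.1 hi)
      have := card_le_card this
      rw [card_range] at this
      omega
    have hhN : ∃ i, i < N ∧ i ∉ h := by
      by_contra hc
      push Not at hc
      obtain ⟨i, hi, hig⟩ := hgN
      have h1 := down_mem hB (hS1 hg1) hi hig
      have hhr := (mem_B1.1 (hS1 hh1)).1
      have h2 : h ∈ B := by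
        refine hB.up _ h1 h (hhr.trans (range_subset_range.2 (by omega))) ?_
        intro a ha
        rcases mem_insert.1 ha with rfl | ha
        · exact hc _ hi
        · exact hc a (mem_range.1 ((mem_B1.1 (hS1 hg1)).1 ha))
      exact (mem_sdiff.1 hh1).2 (mem_B0.2 ⟨h2, not_mem_of hhr⟩)
    -- a set that is not full cannot occur twice in a conflict
    have twice : ∀ w ∈ S, (∃ i, i < N ∧ i ∉ w) → ∀ v ∈ S, s ≤ (w ∩ w ∩ v).card := by
      intro w hw ⟨i, hi, hiw⟩ v hv
      exact conf_b hB hW (hS1 hw) (hS1 hw) (hS1 hv) hi hiw hiw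
    have gen : ∀ (T : Finset (Finset ℕ)) (w : Finset ℕ), T ⊆ S → W3 s T → w ∈ S →
        (∃ i, i < N ∧ i ∉ w) → ¬ W3 s (insert w T) →
        ∃ y ∈ T, ∃ z ∈ T, w.card + y.card + z.card + 1 = 2 * N + s := by
      intro T w hT hTW hw hwN hc
      have hsub : insert w T ⊆ S := insert_subset hw hT
      unfold W3 at hc
      push Not at hc
      obtain ⟨x, hx, y, hy, z, hz, hlt⟩ := hc
      have h1 := conf_c hB hW (hS1 (hsub hx)) (hS1 (hsub hy)) (hS1 (hsub hz)) hlt
      rcases mem_insert.1 hx with rfl | x1 <;> rcases mem_insert.1 hy with e | y1 <;>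
        rcases mem_insert.1 hz with f | z1
      · rw [e] at hlt; have := twice x hw hwN z (hsub hz); omega
      · rw [e] at hlt; have := twice x hw hwN z (hsub hz); omega
      · rw [f, inter_right_comm] at hlt; have := twice x hw hwN y (hsub hy); omega
      · exact ⟨y, y1, z, z1, h1⟩
      · rw [e, f, inter_comm, ← inter_assoc, inter_right_comm] at hlt
        have := twice w hw hwN x (hsub hx); omega
      · exact ⟨x, x1, z, z1, by rw [← e]; omega⟩
      · exact ⟨x, x1, y, y1, by rw [← f]; omega⟩
      · have := hTW x x1 y y1 z z1; omega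
    by_cases c1 : W3 s (insert g Hi)
    · refine ⟨insert g Hi, insert_subset hg1 (filter_subset _ _), c1, ?_⟩
      rw [card_insert_of_notMem (fun hc => by have := (mem_filter.1 hc).2; omega)]
      omega
    by_cases c2 : W3 s (insert h Lo)
    · refine ⟨insert h Lo, insert_subset hh1 (filter_subset _ _), c2, ?_⟩
      rw [card_insert_of_notMem (fun hc => by have := (mem_filter.1 hc).2; omega)]
      omega
    exfalso
    obtain ⟨y, hy, z, hz, e1⟩ := gen Hi g (filter_subset _ _) hHiW hg1 hgN c1
    obtain ⟨y', hy', z', hz', e2⟩ := gen Lo h (filter_subset _ _) hLoW hh1 hhN c2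
    have := hmin y hy
    have := hmin z hz
    have := hmax y' hy'
    have := hmax z' hz'
    omega

/-- One step of the reduction. -/
structure Step (N : ℕ) (B B' : Finset (Finset ℕ)) : Prop where
  le : B.card ≤ 2 * B'.card
  eq : B.card = 2 * B'.card → ∀ X ∈ B, X ∩ range N ∈ B'
  lost : (B.filter (fun X => X ∩ range N ∉ B')).card ≤ DD N

theorem trace_B1 (hB : Good (N + 1) B) {X : Finset ℕ} (hX : X ∈ B) : X ∩ range N ∈ B1 N B := by
  refine mem_B1.2 ⟨inter_subset_right, hB.up X hX _ (ins_sub inter_subset_right) ?_⟩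
  intro a ha
  have := mem_range.1 (mem_powerset.1 (hB.sub hX) ha)
  by_cases h : a = N
  · exact h ▸ mem_insert_self _ _
  · exact mem_insert_of_mem (mem_inter.2 ⟨ha, mem_range.2 (by omega)⟩)

theorem push (hs : 1 ≤ s) (hN : 20 * s ≤ N) (hB : Good (N + 1) B) (hW : W3 s B) :
    ∃ B', Good N B' ∧ W3 s B' ∧ Step N B B' := by
  have hB1s : B1 N B ⊆ (range N).powerset := filter_subset _ _
  have h01 := B0_sub hB
  obtain ⟨G, hG, ⟨hGW, hG0, hG1⟩, hmax⟩ := exists_good N
    (fun F => W3 s F ∧ B0 N B ⊆ F ∧ F ⊆ B1 N B)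
    (by
      intro F _ ⟨h1, h2, h3⟩ i j hij hj
      refine ⟨W3_Sh s i j (by omega) F h1, sub_Sh i j F _ h2 ?_, Sh_sub' i j F _ h3 ?_⟩
      · intro X hX hjX hiX
        obtain ⟨x1, x2⟩ := mem_B0.1 hX
        refine mem_B0.2 ⟨hB.shift X x1 i j hij hjX hiX, ?_⟩
        simp only [mem_insert, mem_erase, not_or, not_and]
        exact ⟨by omega, fun _ => x2⟩
      · intro X hX hjX hiX
        obtain ⟨x1, x2⟩ := mem_B1.1 hX
        refine mem_B1.2 ⟨?_, ?_⟩
        · intro a ha
          rcases mem_insert.1 ha with rfl | ha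
          · exact mem_range.2 (by omega)
          · exact x1 (mem_of_mem_erase ha)
        · have h4 := hB.shift _ x2 i j hij (mem_insert_of_mem hjX) (by
            simp only [mem_insert, not_or]; exact ⟨by omega, hiX⟩)
          have h5 : insert i ((insert N X).erase j) = insert N (insert i (X.erase j)) := by
            ext a
            simp only [mem_insert, mem_erase]
            constructor
            · rintro (h | ⟨h, h' | h'⟩) <;> tauto
            · rintro (h | h | h)
              · right; exact ⟨by omega, Or.inl h⟩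
              · left; exact h
              · right; exact ⟨h.1, Or.inr h.2⟩
          rwa [h5] at h4)
    (by
      intro F _ ⟨h1, h2, h3⟩ X hX Y hY hXY
      refine ⟨W3_insert s F h1 X hX Y hXY, h2.trans (subset_insert _ _), insert_subset ?_ h3⟩
      exact mem_B1.2 ⟨hY, hB.up _ (mem_B1.1 (h3 hX)).2 _ (ins_sub hY) (insert_subset_insert _ hXY)⟩)
    (B0 N B) (h01.trans hB1s)
    ⟨fun x hx y hy z hz => conf_a hW hx (h01 hy) (h01 hz), Subset.refl _, h01⟩
  have prom : ∀ P, P ⊆ B1 N B \ B0 N B → W3 s P → (B0 N B).card + P.card ≤ G.card := by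
    intro P hP hPW
    have h1 : P ⊆ B1 N B := hP.trans sdiff_subset
    have h2 := hmax (B0 N B ∪ P) ((union_subset h01 h1).trans hB1s)
      ⟨W3_promote hB hW P h1 hPW, subset_union_left, union_subset h01 h1⟩
    rwa [card_union_of_disjoint (by
      rw [disjoint_left]; intro x a b; exact (mem_sdiff.1 (hP b)).2 a)] at h2
  have hc := card_B01 hB
  have hsd := card_sdiff_add_card_eq_card h01
  have hG0c := card_le_card hG0
  have strict : (B1 N B \ B0 N B).Nonempty → B.card < 2 * G.card := by
    intro hne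
    obtain ⟨P, p1, p2, p3⟩ := exists_free hs hN hB hW hne
    have := prom P p1 p2
    omega
  refine ⟨G, hG, hGW, ?_, ?_, ?_⟩
  · by_cases hne : (B1 N B \ B0 N B).Nonempty
    · exact (strict hne).le
    · rw [not_nonempty_iff_eq_empty] at hne
      rw [hne, card_empty] at hsd
      omega
  · intro he X hX
    by_contra hcon
    have := strict ⟨X ∩ range N, mem_sdiff.2 ⟨trace_B1 hB hX, fun h => hcon (hG0 h)⟩⟩
    omega
  · have h1 : (B.filter (fun X => X ∩ range N ∉ G)).card ≤ (B1 N B \ G).card := by
      apply card_le_card_of_injOn (fun X => X ∩ range N)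
      · intro X hX
        have hX' := mem_filter.1 (mem_coe.1 hX)
        exact mem_coe.2 (mem_sdiff.2 ⟨trace_B1 hB hX'.1, hX'.2⟩)
      · have key : ∀ X ∈ B.filter (fun X => X ∩ range N ∉ G), X = insert N (X ∩ range N) := by
          intro X hX
          have hX' := mem_filter.1 hX
          have hXr := mem_powerset.1 (hB.sub hX'.1)
          have hNX : N ∈ X := by
            by_contra hh
            apply hX'.2
            rw [inter_eq_left.2 (sub_range_of hXr hh)]
            exact hG0 (mem_B0.2 ⟨hX'.1, hh⟩)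
          ext a
          simp only [mem_insert, mem_inter, mem_range]
          constructor
          · intro ha
            have := mem_range.1 (hXr ha)
            by_cases h : a = N
            · exact Or.inl h
            · exact Or.inr ⟨ha, by omega⟩
          · rintro (rfl | h)
            · exact hNX
            · exact h.1
        intro X hX Y hY hXY
        rw [key X (mem_coe.1 hX), key Y (mem_coe.1 hY)]
        exact congrArg (insert N) hXY
    have h2 := card_sdiff_add_card_eq_card hG1
    set Lo := (B1 N B \ B0 N B).filter (fun x => 3 * x.card + 1 < 2 * N + s) with hLo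
    have hLoW : W3 s Lo := by
      intro x hx y hy z hz
      by_contra hc
      have h1 := conf_c hB hW (sdiff_subset (mem_filter.1 hx).1) (sdiff_subset (mem_filter.1 hy).1)
        (sdiff_subset (mem_filter.1 hz).1) (by omega)
      have := (mem_filter.1 hx).2
      have := (mem_filter.1 hy).2
      have := (mem_filter.1 hz).2
      omega
    have h3 := prom Lo (filter_subset _ _) hLoW
    have h4 := card_filter_add_card_filter_not (s := B1 N B \ B0 N B)
      (fun x => 3 * x.card + 1 < 2 * N + s)
    have h5 : ((B1 N B \ B0 N B).filter (fun x => ¬ 3 * x.card + 1 < 2 * N + s)).card ≤ DD N := by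
      apply card_le_card
      intro x hx
      obtain ⟨x1, x2⟩ := mem_filter.1 hx
      exact mem_filter.2 ⟨hB1s (sdiff_subset x1), by omega⟩
    rw [← hLo] at h4
    omega

end

/-- The whole chain of reductions. -/
theorem chain (s L : ℕ) (hs : 1 ≤ s) (hL : 20 * s ≤ L) (d : ℕ) :
    ∀ F, Good (L + d) F → W3 s F → ∃ B : ℕ → Finset (Finset ℕ), B (L + d) = F ∧
      (∀ l, L ≤ l → l ≤ L + d → Good l (B l) ∧ W3 s (B l)) ∧
      ∀ l, L ≤ l → l < L + d → Step l (B (l + 1)) (B l) := by
  induction d with
  | zero =>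
    intro F hF hW
    refine ⟨fun _ => F, rfl, ?_, ?_⟩
    · intro l h1 h2
      have : l = L + 0 := by omega
      rw [this]; exact ⟨hF, hW⟩
    · intro l h1 h2; omega
  | succ d ih =>
    intro F hF hW
    obtain ⟨F', g1, g2, g3⟩ := push (N := L + d) hs (by omega) hF hW
    obtain ⟨B, b1, b2, b3⟩ := ih F' g1 g2
    refine ⟨fun l => if l = L + (d + 1) then F else B l, by simp, ?_, ?_⟩
    · intro l h1 h2
      by_cases h : l = L + (d + 1)
      · simp only [h, if_true]; exact ⟨hF, hW⟩
      · simp only [h, if_false]; exact b2 l h1 (by omega)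
    · intro l h1 h2
      have h3 : l ≠ L + (d + 1) := by omega
      by_cases h : l + 1 = L + (d + 1)
      · have h4 : l = L + d := by omega
        simp only [h, h3, if_true, if_false]
        rw [h4, b1]; exact g3
      · simp only [h, h3, if_false]; exact b3 l h1 (by omega)

end Pool.Agent.H371Z.Inc
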