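import Pool.Agent.H371Z.Inc.Defs

set_option autoImplicit false

/-! Shifting. -/

namespace Pool.Agent.H371Z.Inc

open Finset

/-- Replace `j` by `i` if possible. -/
def sh (i j : ℕ) (X : Finset ℕ) : Finset ℕ :=
  if j ∈ X ∧ i ∉ X then insert i (X.erase j) else X

/-- The shift of one member. -/
def shF (i j : ℕ) (F : Finset (Finset ℕ)) (X : Finset ℕ) : Finset ℕ :=
  if sh i j X ∈ F then X else sh i j X

/-- The shifted family. -/
def Sh (i j : ℕ) (F : Finset (Finset ℕ)) : Finset (Finset ℕ) := F.image (shF i j F)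

theorem shF_cases (i j : ℕ) (F : Finset (Finset ℕ)) (X : Finset ℕ) (hX : X ∈ F) :
    (shF i j F X = X ∧ sh i j X ∈ F) ∨
      (j ∈ X ∧ i ∉ X ∧ shF i j F X = insert i (X.erase j) ∧ insert i (X.erase j) ∉ F) := by
  unfold shF
  by_cases h : sh i j X ∈ F
  · left; simp [h]
  · right
    have h2 : j ∈ X ∧ i ∉ X := by
      by_contra hc
      apply h
      unfold sh
      rw [if_neg hc]
      exact hX
    have h3 : sh i j X = insert i (X.erase j) := by
      unfold sh
      rw [if_pos h2]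
    rw [if_neg h, h3]
    exact ⟨h2.1, h2.2, rfl, h3 ▸ h⟩

theorem shF_inj (i j : ℕ) (F : Finset (Finset ℕ)) : Set.InjOn (shF i j F) F := by
  intro X hX Y hY hXY
  rcases shF_cases i j F X hX with ⟨h1, _⟩ | ⟨h1, h2, h3, h4⟩ <;>
    rcases shF_cases i j F Y hY with ⟨g1, _⟩ | ⟨g1, g2, g3, g4⟩
  · rw [← h1, ← g1, hXY]
  · exfalso; apply g4; rw [← g3, ← hXY, h1]; exact hX
  · exfalso; apply h4; rw [← h3, hXY, g1]; exact hY
  · rw [h3, g3] at hXY
    ext a
    have := congrArg (fun Z => a ∈ Z) hXY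
    simp only [mem_insert, mem_erase, eq_iff_iff] at this
    by_cases hai : a = i
    · subst hai; simp [h2, g2]
    · by_cases haj : a = j
      · subst haj; simp [h1, g1]
      · simpa [hai, haj] using this

theorem card_Sh (i j : ℕ) (F : Finset (Finset ℕ)) : (Sh i j F).card = F.card :=
  card_image_of_injOn (shF_inj i j F)

theorem Sh_sub (i j n : ℕ) (hi : i < n) (F : Finset (Finset ℕ)) (hF : F ⊆ (range n).powerset) :
    Sh i j F ⊆ (range n).powerset := by
  intro Z hZ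
  obtain ⟨X, hX, rfl⟩ := mem_image.1 hZ
  have hXn := mem_powerset.1 (hF hX)
  rcases shF_cases i j F X hX with ⟨h1, _⟩ | ⟨_, _, h3, _⟩
  · rw [h1]; exact hF hX
  · rw [h3, mem_powerset]
    intro a ha
    rcases mem_insert.1 ha with rfl | ha
    · exact mem_range.2 hi
    · exact hXn (mem_of_mem_erase ha)

/-- lower sandwich -/
theorem sub_Sh (i j : ℕ) (F F0 : Finset (Finset ℕ)) (h : F0 ⊆ F)
    (h0 : ∀ X ∈ F0, j ∈ X → i ∉ X → insert i (X.erase j) ∈ F0) : F0 ⊆ Sh i j F := by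
  intro X hX
  rcases shF_cases i j F X (h hX) with ⟨h1, _⟩ | ⟨h1, h2, _, h4⟩
  · exact mem_image.2 ⟨X, h hX, h1⟩
  · exact absurd (h (h0 X hX h1 h2)) h4

/-- upper sandwich -/
theorem Sh_sub' (i j : ℕ) (F F1 : Finset (Finset ℕ)) (h : F ⊆ F1)
    (h1 : ∀ X ∈ F1, j ∈ X → i ∉ X → insert i (X.erase j) ∈ F1) : Sh i j F ⊆ F1 := by
  intro Z hZ
  obtain ⟨X, hX, rfl⟩ := mem_image.1 hZ
  rcases shF_cases i j F X hX with ⟨g1, _⟩ | ⟨g1, g2, g3, _⟩
  · rw [g1]; exact h hX
  · rw [g3]; exact h1 X (h hX) g1 g2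

/-- A counting lemma behind the shifting of intersection conditions. -/
theorem card_le_of_swap (i j : ℕ) (U V : Finset ℕ)
    (h : ∀ a, a ≠ j → a ∈ U → a ∈ V) (hj : j ∈ U → i ∈ V ∧ i ∉ U) : U.card ≤ V.card := by
  by_cases hjU : j ∈ U
  · obtain ⟨hiV, hiU⟩ := hj hjU
    have h1 : insert i (U.erase j) ⊆ V := by
      intro a ha
      rcases mem_insert.1 ha with rfl | ha
      · exact hiV
      · exact h a (ne_of_mem_erase ha) (mem_of_mem_erase ha)
    have h2 := card_le_card h1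
    rw [card_insert_of_notMem (fun hh => hiU (mem_of_mem_erase hh)), card_erase_of_mem hjU] at h2
    have : 0 < U.card := card_pos.2 ⟨j, hjU⟩
    omega
  · exact card_le_card (fun a ha => h a (fun e => hjU (e ▸ ha)) ha)

theorem sh_mem (i j : ℕ) (F : Finset (Finset ℕ)) (X : Finset ℕ) (h : sh i j X ∈ F) (hj : j ∈ X)
    (hi : i ∉ X) : insert i (X.erase j) ∈ F := by
  unfold sh at h
  rwa [if_pos ⟨hj, hi⟩] at h

theorem W3_Sh (s i j : ℕ) (hij : i ≠ j) (F : Finset (Finset ℕ)) (hF : W3 s F) :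
    W3 s (Sh i j F) := by
  -- one shifted member suffices for the key step
  have key : ∀ A ∈ F, ∀ B ∈ F, ∀ C ∈ F, j ∈ A → i ∉ A →
      s ≤ (insert i (A.erase j) ∩ shF i j F B ∩ shF i j F C).card := by
    intro A hA B hB C hC hjA hiA
    rcases shF_cases i j F B hB with ⟨b1, b2⟩ | ⟨b1, b2, b3, _⟩ <;>
      rcases shF_cases i j F C hC with ⟨c1, c2⟩ | ⟨c1, c2, c3, _⟩
    · rw [b1, c1]
      by_cases hb : j ∈ B ∧ i ∉ B
      · refine (hF A hA _ (sh_mem i j F B b2 hb.1 hb.2) C hC).trans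
          (card_le_of_swap i j _ _ ?_ ?_)
        · intro a ha
          simp only [mem_inter, mem_insert, mem_erase]
          rintro ⟨⟨h1, h2 | h2⟩, h3⟩
          · exact absurd (h2 ▸ h1) hiA
          · exact ⟨⟨Or.inr ⟨ha, h1⟩, h2.2⟩, h3⟩
        · simp only [mem_inter, mem_insert, mem_erase]
          rintro ⟨⟨_, h2 | h2⟩, _⟩
          · exact absurd h2.symm hij
          · exact absurd rfl h2.1
      · by_cases hc : j ∈ C ∧ i ∉ C
        · refine (hF A hA B hB _ (sh_mem i j F C c2 hc.1 hc.2)).trans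
            (card_le_of_swap i j _ _ ?_ ?_)
          · intro a ha
            simp only [mem_inter, mem_insert, mem_erase]
            rintro ⟨⟨h1, h3⟩, h2 | h2⟩
            · exact absurd (h2 ▸ h1) hiA
            · exact ⟨⟨Or.inr ⟨ha, h1⟩, h3⟩, h2.2⟩
          · simp only [mem_inter, mem_insert, mem_erase]
            rintro ⟨⟨_, _⟩, h2 | h2⟩
            · exact absurd h2.symm hij
            · exact absurd rfl h2.1
        · refine (hF A hA B hB C hC).trans (card_le_of_swap i j _ _ ?_ ?_)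
          · intro a ha
            simp only [mem_inter, mem_insert, mem_erase]
            rintro ⟨⟨h1, h2⟩, h3⟩
            exact ⟨⟨Or.inr ⟨ha, h1⟩, h2⟩, h3⟩
          · simp only [mem_inter, mem_insert, mem_erase]
            rintro ⟨⟨_, h2⟩, h3⟩
            have hiB : i ∈ B := by
              by_contra hh; exact hb ⟨h2, hh⟩
            have hiC : i ∈ C := by
              by_contra hh; exact hc ⟨h3, hh⟩
            exact ⟨⟨⟨Or.inl trivial, hiB⟩, hiC⟩, fun hh => hiA hh.1.1⟩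
    · rw [b1, c3]
      by_cases hb : j ∈ B ∧ i ∉ B
      · refine (hF A hA _ (sh_mem i j F B b2 hb.1 hb.2) C hC).trans
          (card_le_of_swap i j _ _ ?_ ?_)
        · intro a ha
          simp only [mem_inter, mem_insert, mem_erase]
          rintro ⟨⟨h1, h2 | h2⟩, h3⟩
          · exact absurd (h2 ▸ h1) hiA
          · exact ⟨⟨Or.inr ⟨ha, h1⟩, h2.2⟩, Or.inr ⟨ha, h3⟩⟩
        · simp only [mem_inter, mem_insert, mem_erase]
          rintro ⟨⟨_, h2 | h2⟩, _⟩
          · exact absurd h2.symm hij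
          · exact absurd rfl h2.1
      · refine (hF A hA B hB C hC).trans (card_le_of_swap i j _ _ ?_ ?_)
        · intro a ha
          simp only [mem_inter, mem_insert, mem_erase]
          rintro ⟨⟨h1, h2⟩, h3⟩
          exact ⟨⟨Or.inr ⟨ha, h1⟩, h2⟩, Or.inr ⟨ha, h3⟩⟩
        · simp only [mem_inter, mem_insert, mem_erase]
          rintro ⟨⟨_, h2⟩, h3⟩
          have hiB : i ∈ B := by
            by_contra hh; exact hb ⟨h2, hh⟩
          exact ⟨⟨⟨Or.inl trivial, hiB⟩, Or.inl trivial⟩, fun hh => hiA hh.1.1⟩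
    · rw [b3, c1]
      by_cases hc : j ∈ C ∧ i ∉ C
      · refine (hF A hA B hB _ (sh_mem i j F C c2 hc.1 hc.2)).trans
          (card_le_of_swap i j _ _ ?_ ?_)
        · intro a ha
          simp only [mem_inter, mem_insert, mem_erase]
          rintro ⟨⟨h1, h3⟩, h2 | h2⟩
          · exact absurd (h2 ▸ h1) hiA
          · exact ⟨⟨Or.inr ⟨ha, h1⟩, Or.inr ⟨ha, h3⟩⟩, h2.2⟩
        · simp only [mem_inter, mem_insert, mem_erase]
          rintro ⟨⟨_, _⟩, h2 | h2⟩
          · exact absurd h2.symm hij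
          · exact absurd rfl h2.1
      · refine (hF A hA B hB C hC).trans (card_le_of_swap i j _ _ ?_ ?_)
        · intro a ha
          simp only [mem_inter, mem_insert, mem_erase]
          rintro ⟨⟨h1, h2⟩, h3⟩
          exact ⟨⟨Or.inr ⟨ha, h1⟩, Or.inr ⟨ha, h2⟩⟩, h3⟩
        · simp only [mem_inter, mem_insert, mem_erase]
          rintro ⟨⟨_, h2⟩, h3⟩
          have hiC : i ∈ C := by
            by_contra hh; exact hc ⟨h3, hh⟩
          exact ⟨⟨⟨Or.inl trivial, Or.inl trivial⟩, hiC⟩, fun hh => hiA hh.1.1⟩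
    · rw [b3, c3]
      refine (hF A hA B hB C hC).trans (card_le_of_swap i j _ _ ?_ ?_)
      · intro a ha
        simp only [mem_inter, mem_insert, mem_erase]
        rintro ⟨⟨h1, h2⟩, h3⟩
        exact ⟨⟨Or.inr ⟨ha, h1⟩, Or.inr ⟨ha, h2⟩⟩, Or.inr ⟨ha, h3⟩⟩
      · simp only [mem_inter, mem_insert, mem_erase]
        rintro ⟨⟨_, _⟩, _⟩
        exact ⟨⟨⟨Or.inl trivial, Or.inl trivial⟩, Or.inl trivial⟩, fun hh => hiA hh.1.1⟩
  intro A' hA' B' hB' C' hC'
  obtain ⟨A, hA, rfl⟩ := mem_image.1 hA'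
  obtain ⟨B, hB, rfl⟩ := mem_image.1 hB'
  obtain ⟨C, hC, rfl⟩ := mem_image.1 hC'
  rcases shF_cases i j F A hA with ⟨a1, _⟩ | ⟨a1, a2, a3, _⟩
  · rcases shF_cases i j F B hB with ⟨b1, _⟩ | ⟨b1, b2, b3, _⟩
    · rcases shF_cases i j F C hC with ⟨c1, _⟩ | ⟨c1, c2, c3, _⟩
      · rw [a1, b1, c1]; exact hF A hA B hB C hC
      · have := key C hC A hA B hB c1 c2
        rw [c3, inter_comm, ← inter_assoc]
        exact this
    · have := key B hB A hA C hC b1 b2
      rw [b3, inter_comm (shF i j F A)]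
      exact this
  · rw [a3]; exact key A hA B hB C hC a1 a2

theorem TInt_Sh (t i j : ℕ) (hij : i ≠ j) (F : Finset (Finset ℕ)) (hF : TInt t F) :
    TInt t (Sh i j F) := by
  have key : ∀ A ∈ F, ∀ B ∈ F, j ∈ A → i ∉ A →
      t ≤ (insert i (A.erase j) ∩ shF i j F B).card := by
    intro A hA B hB hjA hiA
    rcases shF_cases i j F B hB with ⟨b1, b2⟩ | ⟨b1, b2, b3, _⟩
    · rw [b1]
      by_cases hb : j ∈ B ∧ i ∉ B
      · refine (hF A hA _ (sh_mem i j F B b2 hb.1 hb.2)).trans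
          (card_le_of_swap i j _ _ ?_ ?_)
        · intro a ha
          simp only [mem_inter, mem_insert, mem_erase]
          rintro ⟨h1, h2 | h2⟩
          · exact absurd (h2 ▸ h1) hiA
          · exact ⟨Or.inr ⟨ha, h1⟩, h2.2⟩
        · simp only [mem_inter, mem_insert, mem_erase]
          rintro ⟨_, h2 | h2⟩
          · exact absurd h2.symm hij
          · exact absurd rfl h2.1
      · refine (hF A hA B hB).trans (card_le_of_swap i j _ _ ?_ ?_)
        · intro a ha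
          simp only [mem_inter, mem_insert, mem_erase]
          rintro ⟨h1, h2⟩
          exact ⟨Or.inr ⟨ha, h1⟩, h2⟩
        · simp only [mem_inter, mem_insert, mem_erase]
          rintro ⟨_, h2⟩
          have hiB : i ∈ B := by
            by_contra hh; exact hb ⟨h2, hh⟩
          exact ⟨⟨Or.inl trivial, hiB⟩, fun hh => hiA hh.1⟩
    · rw [b3]
      refine (hF A hA B hB).trans (card_le_of_swap i j _ _ ?_ ?_)
      · intro a ha
        simp only [mem_inter, mem_insert, mem_erase]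
        rintro ⟨h1, h2⟩
        exact ⟨Or.inr ⟨ha, h1⟩, Or.inr ⟨ha, h2⟩⟩
      · simp only [mem_inter, mem_insert, mem_erase]
        rintro ⟨_, _⟩
        exact ⟨⟨Or.inl trivial, Or.inl trivial⟩, fun hh => hiA hh.1⟩
  intro A' hA' B' hB'
  obtain ⟨A, hA, rfl⟩ := mem_image.1 hA'
  obtain ⟨B, hB, rfl⟩ := mem_image.1 hB'
  rcases shF_cases i j F A hA with ⟨a1, _⟩ | ⟨a1, a2, a3, _⟩
  · rcases shF_cases i j F B hB with ⟨b1, _⟩ | ⟨b1, b2, b3, _⟩
    · rw [a1, b1]; exact hF A hA B hB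
    · have := key B hB A hA b1 b2
      rw [b3, inter_comm]
      exact this
  · rw [a3]; exact key A hA B hB a1 a2

/-- The weight of a family. -/
def wt (F : Finset (Finset ℕ)) : ℕ := ∑ X ∈ F, ∑ a ∈ X, a

theorem wt_ins (i j : ℕ) (hij : i < j) (X : Finset ℕ) (hj : j ∈ X) (hi : i ∉ X) :
    ∑ a ∈ insert i (X.erase j), a < ∑ a ∈ X, a := by
  rw [sum_insert (fun hh => hi (mem_of_mem_erase hh)), ← add_sum_erase X (fun a => a) hj]
  omega

theorem wt_Sh (i j : ℕ) (hij : i < j) (F : Finset (Finset ℕ)) (X : Finset ℕ) (hX : X ∈ F)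
    (hj : j ∈ X) (hi : i ∉ X) (h : insert i (X.erase j) ∉ F) : wt (Sh i j F) < wt F := by
  unfold wt Sh
  rw [sum_image (shF_inj i j F)]
  apply sum_lt_sum
  · intro Y hY
    rcases shF_cases i j F Y hY with ⟨h1, _⟩ | ⟨h1, h2, h3, _⟩
    · rw [h1]
    · rw [h3]; exact (wt_ins i j hij Y h1 h2).le
  · refine ⟨X, hX, ?_⟩
    rcases shF_cases i j F X hX with ⟨_, h2⟩ | ⟨h1, h2, h3, _⟩
    · exact absurd (sh_mem i j F X h2 hj hi) h
    · rw [h3]; exact wt_ins i j hij X h1 h2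

/-- A shifted up-set of subsets of `{0, ..., n-1}`. -/
structure Good (n : ℕ) (F : Finset (Finset ℕ)) : Prop where
  sub : F ⊆ (range n).powerset
  up : ∀ X ∈ F, ∀ Y, Y ⊆ range n → X ⊆ Y → Y ∈ F
  shift : ∀ X ∈ F, ∀ i j, i < j → j ∈ X → i ∉ X → insert i (X.erase j) ∈ F

/-- Among the largest families with a property that is stable under shifting and under adding
supersets there is a shifted up-set. -/
theorem exists_good (n : ℕ) (Φ : Finset (Finset ℕ) → Prop)
    (hS : ∀ F, F ⊆ (range n).powerset → Φ F → ∀ i j, i < j → j < n → Φ (Sh i j F))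
    (hU : ∀ F, F ⊆ (range n).powerset → Φ F → ∀ X ∈ F, ∀ Y, Y ⊆ range n → X ⊆ Y →
      Φ (insert Y F))
    (F0 : Finset (Finset ℕ)) (h0 : F0 ⊆ (range n).powerset) (hΦ : Φ F0) :
    ∃ G, Good n G ∧ Φ G ∧ ∀ F, F ⊆ (range n).powerset → Φ F → F.card ≤ G.card := by
  classical
  set T := ((range n).powerset.powerset).filter Φ with hT
  have memT : ∀ F, F ∈ T ↔ F ⊆ (range n).powerset ∧ Φ F := by
    intro F; rw [hT, mem_filter, mem_powerset]
  obtain ⟨G1, hG1, hmax⟩ := exists_max_image T Finset.card ⟨F0, (memT F0).2 ⟨h0, hΦ⟩⟩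
  obtain ⟨G, hG, hmin⟩ := exists_min_image (T.filter (fun F => F.card = G1.card)) wt
    ⟨G1, mem_filter.2 ⟨hG1, rfl⟩⟩
  obtain ⟨hGT, hGc⟩ := mem_filter.1 hG
  obtain ⟨hGs, hGΦ⟩ := (memT G).1 hGT
  refine ⟨G, ⟨hGs, ?_, ?_⟩, hGΦ, fun F h1 h2 => hGc ▸ hmax F ((memT F).2 ⟨h1, h2⟩)⟩
  · intro X hX Y hY hXY
    by_contra hc
    have h1 : insert Y G ∈ T :=
      (memT _).2 ⟨insert_subset (mem_powerset.2 hY) hGs, hU G hGs hGΦ X hX Y hY hXY⟩
    have h2 := hmax _ h1
    rw [card_insert_of_notMem hc] at h2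
    omega
  · intro X hX i j hij hj hi
    by_contra hc
    have hjn : j < n := mem_range.1 (mem_powerset.1 (hGs hX) hj)
    have h1 : Sh i j G ∈ T.filter (fun F => F.card = G1.card) :=
      mem_filter.2 ⟨(memT _).2 ⟨Sh_sub i j n (by omega) G hGs, hS G hGs hGΦ i j hij hjn⟩,
        by rw [card_Sh, hGc]⟩
    have h2 := hmin _ h1
    have h3 := wt_Sh i j hij G X hX hj hi hc
    omega

theorem W3_insert (s : ℕ) (F : Finset (Finset ℕ)) (hF : W3 s F) (X : Finset ℕ) (hX : X ∈ F)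
    (Y : Finset ℕ) (hXY : X ⊆ Y) : W3 s (insert Y F) := by
  have h : ∀ A ∈ insert Y F, ∃ A' ∈ F, A' ⊆ A := by
    intro A hA
    rcases mem_insert.1 hA with rfl | hA
    · exact ⟨X, hX, hXY⟩
    · exact ⟨A, hA, Subset.refl _⟩
  intro A hA B hB C hC
  obtain ⟨A', a1, a2⟩ := h A hA
  obtain ⟨B', b1, b2⟩ := h B hB
  obtain ⟨C', c1, c2⟩ := h C hC
  exact (hF A' a1 B' b1 C' c1).trans
    (card_le_card (inter_subset_inter (inter_subset_inter a2 b2) c2))

theorem TInt_insert (t : ℕ) (F : Finset (Finset ℕ)) (hF : TInt t F) (X : Finset ℕ) (hX : X ∈ F)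
    (Y : Finset ℕ) (hXY : X ⊆ Y) : TInt t (insert Y F) := by
  have h : ∀ A ∈ insert Y F, ∃ A' ∈ F, A' ⊆ A := by
    intro A hA
    rcases mem_insert.1 hA with rfl | hA
    · exact ⟨X, hX, hXY⟩
    · exact ⟨A, hA, Subset.refl _⟩
  intro A hA B hB
  obtain ⟨A', a1, a2⟩ := h A hA
  obtain ⟨B', b1, b2⟩ := h B hB
  exact (hF A' a1 B' b1).trans (card_le_card (inter_subset_inter a2 b2))

end Pool.Agent.H371Z.Inc
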