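import Pool.Agent.H371Z.Inc.Fib

set_option autoImplicit false

/-! The upper bound. -/

namespace Pool.Agent.H371Z.Inc

open Finset

theorem le_maxCard {n : ℕ} {P : Finset (Finset ℕ) → Prop} {F : Finset (Finset ℕ)}
    (hF : F ⊆ (range n).powerset) (hP : P F) : F.card ≤ maxCard n P := by
  classical
  unfold maxCard
  exact le_sup (f := Finset.card) (mem_filter.2 ⟨mem_powerset.2 hF, hP⟩)

theorem exists_maxCard (n : ℕ) (P : Finset (Finset ℕ) → Prop) (h0 : P ∅) :
    ∃ F, F ⊆ (range n).powerset ∧ P F ∧ F.card = maxCard n P := by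
  classical
  unfold maxCard
  obtain ⟨F, hF, he⟩ := exists_mem_eq_sup (((range n).powerset.powerset).filter P)
    ⟨∅, mem_filter.2 ⟨mem_powerset.2 (empty_subset _), h0⟩⟩ Finset.card
  exact ⟨F, mem_powerset.1 (mem_filter.1 hF).1, (mem_filter.1 hF).2, he.symm⟩

theorem upper3 (s L : ℕ) (hs : 1 ≤ s) (hL : 20 * s ≤ L) (d : ℕ) (F : Finset (Finset ℕ))
    (hF : F ⊆ (range (L + d)).powerset) (hW : W3 s F) :
    F.card ≤ maxCard L (W3 s) * 2 ^ d := by
  obtain ⟨G, hG, hGW, hmax⟩ := exists_good (L + d) (W3 s)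
    (fun F _ h i j hij _ => W3_Sh s i j (by omega) F h)
    (fun F _ h X hX Y _ hXY => W3_insert s F h X hX Y hXY) F hF hW
  obtain ⟨B, b1, b2, b3⟩ := chain s L hs hL d G hG hGW
  have key : ∀ k, k ≤ d → (B (L + k)).card ≤ maxCard L (W3 s) * 2 ^ k := by
    intro k
    induction k with
    | zero =>
      intro _
      have := b2 L le_rfl (by omega)
      simpa using le_maxCard this.1.sub this.2
    | succ k ih =>
      intro hk
      have h1 := (b3 (L + k) (by omega) (by omega)).le
      have h2 := ih (by omega)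
      rw [pow_succ, ← add_assoc]
      nlinarith
  have := key d le_rfl
  rw [b1] at this
  exact (hmax F hF hW).trans this

theorem rigid (s L : ℕ) (hsL : s ≤ L) (C : Finset (Finset ℕ)) (hC : C ⊆ (range L).powerset)
    (hW : W3 s C) (hc : C.card = maxCard L (W3 s)) (y : Finset ℕ) (hy : y ⊆ range L)
    (hyC : y ∉ C) : ∃ u ∈ C, ∃ v ∈ C, (u ∩ v ∩ y).card < s := by
  by_contra hcon
  push Not at hcon
  have hne : C.Nonempty := by
    have h1 : ({range L} : Finset (Finset ℕ)).card ≤ maxCard L (W3 s) := by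
      apply le_maxCard (by simp)
      intro A hA B hB D hD
      rw [mem_singleton] at hA hB hD
      rw [hA, hB, hD]
      simpa using hsL
    rw [card_singleton] at h1
    exact card_pos.1 (by omega)
  obtain ⟨u0, hu0⟩ := hne
  have h2 : W3 s (insert y C) := by
    have h : ∀ A ∈ insert y C, ∃ u ∈ C, u ∩ y ⊆ A := by
      intro A hA
      rcases mem_insert.1 hA with rfl | hA
      · exact ⟨u0, hu0, inter_subset_right⟩
      · exact ⟨A, hA, inter_subset_left⟩
    intro A hA B hB D hD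
    rcases mem_insert.1 hA with rfl | a1
    · obtain ⟨u, u1, u2⟩ := h B hB
      obtain ⟨v, v1, v2⟩ := h D hD
      refine (hcon u u1 v v1).trans (card_le_card ?_)
      intro a ha
      simp only [mem_inter] at ha ⊢
      exact ⟨⟨ha.2, u2 (mem_inter.2 ⟨ha.1.1, ha.2⟩)⟩, v2 (mem_inter.2 ⟨ha.1.2, ha.2⟩)⟩
    rcases mem_insert.1 hB with rfl | b1
    · obtain ⟨v, v1, v2⟩ := h D hD
      refine (hcon A a1 v v1).trans (card_le_card ?_)
      intro a ha
      simp only [mem_inter] at ha ⊢
      exact ⟨⟨ha.1.1, ha.2⟩, v2 (mem_inter.2 ⟨ha.1.2, ha.2⟩)⟩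
    rcases mem_insert.1 hD with rfl | d1
    · exact hcon A a1 B b1
    exact hW A a1 B b1 D d1
  have h3 := le_maxCard (insert_subset (mem_powerset.2 hy) hC) h2
  rw [card_insert_of_notMem hyC] at h3
  omega

/-- The fibre over a point of the core whose window family is small. -/
theorem fibre_loss {n t L M : ℕ} (hLM : L ≤ M) (hMn : M ≤ n) (ht : L + 2 ≤ t)
    {F BM : Finset (Finset ℕ)} (hF : F ⊆ (range n).powerset) (hT : TInt t F)
    (hBM : BM ⊆ (range M).powerset) (u : Finset ℕ)
    (hu : 2 * (fib BM L u).card ≤ 2 ^ (M - L)) :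
    ((fib F L u).card : ℝ) ≤ ((F.filter (fun X => X ∩ range M ∉ BM)).card : ℝ) +
      2 ^ (n - L) * (1 / 2 - 1 / (4 * (2 * ((M - L : ℕ) : ℝ) + 1))) := by
  set P := fib BM L u with hP
  set P' := P.filter (fun p => 2 ^ (n - M) < 2 * (fib F M p).card) with hP'
  have h1 : fib F L u ⊆ F.filter (fun X => X ∩ range M ∉ BM) ∪
      F.filter (fun X => X ∩ range M ∈ P) := by
    intro X hX
    obtain ⟨x1, x2⟩ := mem_filter.1 hX
    by_cases hc : X ∩ range M ∈ BM
    · refine mem_union_right _ (mem_filter.2 ⟨x1, mem_filter.2 ⟨hc, ?_⟩⟩)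
      rwa [inter_assoc, inter_eq_right.2 (range_subset_range.2 hLM)]
    · exact mem_union_left _ (mem_filter.2 ⟨x1, hc⟩)
  have h2 := (card_le_card h1).trans (card_union_le _ _)
  rw [card_filter_trace] at h2
  have h3 : 2 * ∑ p ∈ P, (fib F M p).card ≤ (P.card + P'.card) * 2 ^ (n - M) := by
    rw [mul_sum, hP', card_filter, card_eq_sum_ones P, ← sum_add_distrib, sum_mul]
    apply sum_le_sum
    intro p _
    have := fib_le hF M p
    split_ifs with h
    · omega
    · omega
  have h4 : (2 * (M - L) + 1) * P'.card ≤ (M - L) * 2 ^ (M - L) := by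
    have e : P' = fib P' L u := by
      unfold fib
      symm
      rw [filter_eq_self]
      intro p hp
      exact (mem_filter.1 (mem_filter.1 hp).1).2
    have hsub : P' ⊆ (range M).powerset :=
      (filter_subset _ _).trans ((filter_subset _ _).trans hBM)
    rw [e, ← card_tl]
    apply two_int L M hLM _ (tl_sub hsub L u)
    intro x hx y hy
    obtain ⟨p, hp, rfl⟩ := mem_image.1 hx
    obtain ⟨q, hq, rfl⟩ := mem_image.1 hy
    have hp' := (mem_filter.1 (mem_filter.1 hp).1).2
    have hq' := (mem_filter.1 (mem_filter.1 hq).1).2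
    have hpq : t ≤ (p ∩ q).card := by
      by_contra hc
      have := fib_cross hF M p q (by
        intro X hX Y hY
        obtain ⟨x1, x2⟩ := mem_filter.1 hX
        obtain ⟨y1, y2⟩ := mem_filter.1 hY
        have e2 : X ∩ Y ∩ range M = p ∩ q := by
          rw [← x2, ← y2]; ext a; simp only [mem_inter]; tauto
        rw [e2]
        have := hT X x1 Y y1
        omega)
      omega
    have e3 : p \ range L ∩ (q \ range L) = (p ∩ q) \ range L := by
      ext a; simp only [mem_inter, mem_sdiff]; tauto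
    rw [e3]
    have := le_card_sdiff (range L) (p ∩ q)
    rw [card_range] at this
    omega
  set m : ℕ := M - L with hm
  have h5 : (2 : ℝ) ^ (n - L) = 2 ^ m * 2 ^ (n - M) := by
    rw [← pow_add]; congr 1; omega
  have h2' : ((fib F L u).card : ℝ) ≤ ((F.filter (fun X => X ∩ range M ∉ BM)).card : ℝ) +
      ((∑ p ∈ P, (fib F M p).card : ℕ) : ℝ) := by exact_mod_cast h2
  have h3' : 2 * ((∑ p ∈ P, (fib F M p).card : ℕ) : ℝ) ≤
      ((P.card : ℝ) + P'.card) * 2 ^ (n - M) := by exact_mod_cast h3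
  have h4' : (2 * (m : ℝ) + 1) * P'.card ≤ m * 2 ^ m := by exact_mod_cast h4
  have hu' : 2 * (P.card : ℝ) ≤ 2 ^ m := by exact_mod_cast hu
  have hm0 : (0 : ℝ) < 2 * m + 1 := by positivity
  have h6 : (P'.card : ℝ) ≤ 2 ^ m * (1 / 2 - 1 / (2 * (2 * (m : ℝ) + 1))) := by
    have : (2 : ℝ) ^ m * (1 / 2 - 1 / (2 * (2 * (m : ℝ) + 1))) = m * 2 ^ m / (2 * m + 1) := by
      field_simp; ring
    rw [this, le_div_iff₀ hm0]
    linarith
  have h7 : (P.card : ℝ) + P'.card ≤ 2 * (2 ^ m * (1 / 2 - 1 / (4 * (2 * (m : ℝ) + 1)))) := by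
    have e1 : (1 : ℝ) / (2 * (2 * (m : ℝ) + 1)) = 2 * (1 / (4 * (2 * (m : ℝ) + 1))) := by
      field_simp; ring
    rw [e1] at h6
    have hp : (0 : ℝ) < 2 ^ m := by positivity
    nlinarith
  have h8 := mul_le_mul_of_nonneg_right h7 (show (0 : ℝ) ≤ 2 ^ (n - M) by positivity)
  rw [h5]
  nlinarith

theorem small_ev (c : ℝ) : ∃ K : ℕ, ∀ M, K ≤ M → c * ((2 * (M : ℝ) + 1) * (19 / 20) ^ M) ≤ 1 := by
  have h1 : Filter.Tendsto (fun M : ℕ => (M : ℝ) * (19 / 20 : ℝ) ^ M) Filter.atTop (nhds 0) :=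
    tendsto_self_mul_const_pow_of_lt_one (by norm_num) (by norm_num)
  have h2 : Filter.Tendsto (fun M : ℕ => (19 / 20 : ℝ) ^ M) Filter.atTop (nhds 0) :=
    tendsto_pow_atTop_nhds_zero_of_lt_one (by norm_num) (by norm_num)
  have h3 := ((h1.const_mul 2).add h2).const_mul c
  simp only [mul_zero, add_zero] at h3
  have h4 := h3.eventually (ge_mem_nhds (show (0 : ℝ) < 1 by norm_num))
  obtain ⟨K, hK⟩ := Filter.eventually_atTop.1 h4
  refine ⟨K, fun M hM => ?_⟩
  have := hK M hM
  calc c * ((2 * (M : ℝ) + 1) * (19 / 20) ^ M)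
      = c * (2 * ((M : ℝ) * (19 / 20) ^ M) + (19 / 20) ^ M) := by ring
    _ ≤ 1 := this

theorem upper (s L : ℕ) (hs : 1 ≤ s) (hL : 20 * s ≤ L) : ∃ t0 : ℕ, ∀ t, t0 ≤ t → ∀ n, L ≤ n →
    ∀ F, F ⊆ (range n).powerset → W3 s F → TInt t F →
      2 * F.card ≤ maxCard L (W3 s) * 2 ^ (n - L) := by
  classical
  obtain ⟨K1, hK1⟩ := small_ev (100 * 2 ^ L)
  set K' := max K1 L with hK'
  obtain ⟨K2, hK2⟩ := small_ev (20 * 2 ^ K')
  refine ⟨max K2 K' + 2, ?_⟩
  intro t ht n hn F0 hF0 hW0 hT0
  have hK'1 : K1 ≤ K' := le_max_left _ _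
  have hK'L : L ≤ K' := le_max_right _ _
  have htK2 : K2 ≤ t - 1 := by have := le_max_left K2 K'; omega
  have htK' : K' + 2 ≤ t := by have := le_max_right K2 K'; omega
  set A := maxCard L (W3 s) with hA
  obtain ⟨F, hG, ⟨hW, hT⟩, hmax⟩ := exists_good n (fun F => W3 s F ∧ TInt t F)
    (fun F _ h i j hij _ => ⟨W3_Sh s i j (by omega) F h.1, TInt_Sh t i j (by omega) F h.2⟩)
    (fun F _ h X hX Y _ hXY => ⟨W3_insert s F h.1 X hX Y hXY, TInt_insert t F h.2 X hX Y hXY⟩)
    F0 hF0 ⟨hW0, hT0⟩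
  refine le_trans (Nat.mul_le_mul_left 2 (hmax F0 hF0 ⟨hW0, hT0⟩)) ?_
  by_contra hcon
  push Not at hcon
  have hF := hG.sub
  have htn : t ≤ n := by
    obtain ⟨X, hX⟩ : F.Nonempty := card_pos.1 (by omega)
    have h1 := hT X hX X hX
    rw [inter_self] at h1
    have h2 := card_le_card (mem_powerset.1 (hF hX))
    rw [card_range] at h2
    omega
  obtain ⟨d, hd⟩ : ∃ d, n = L + d := ⟨n - L, by omega⟩
  obtain ⟨B, b1, b2, b3⟩ := chain s L hs hL d F (hd ▸ hG) hW
  rw [← hd] at b1 b2 b3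
  have lost : ∀ l, L ≤ l → l ≤ n →
      ((F.filter (fun X => X ∩ range l ∉ B l)).card : ℝ) ≤ 10 * (19 / 20) ^ l * 2 ^ n := by
    intro l h1 h2
    have := lost_le L n B (b1 ▸ hF) b3 (n - l) l h1 (by omega)
    rwa [b1] at this
  have split : ∀ (l : ℕ) (C : Finset (Finset ℕ)), F.card = (F.filter (fun X => X ∩ range l ∈ C)).card +
      (F.filter (fun X => X ∩ range l ∉ C)).card :=
    fun l C => (card_filter_add_card_filter_not (s := F) (fun X => X ∩ range l ∈ C)).symm
  have down : ∀ k l, L ≤ l → l + k ≤ n → (B (l + k)).card ≤ (B l).card * 2 ^ k := by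
    intro k
    induction k with
    | zero => intro l _ _; simp
    | succ k ih =>
      intro l h1 h2
      have h3 := (b3 (l + k) (by omega) (by omega)).le
      have h4 := ih l h1 (by omega)
      rw [pow_succ, ← add_assoc]
      nlinarith
  have ub : ∀ l, L ≤ l → l ≤ n → (B l).card ≤ A * 2 ^ (l - L) := by
    intro l h1 h2
    have h3 := b2 l h1 h2
    have h4 : l = L + (l - L) := by omega
    exact upper3 s L hs hL (l - L) (B l) (h4 ▸ h3.1.sub) h3.2
  -- Step A: the family at level `K'` is optimal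
  have hopt : A * 2 ^ (K' - L) ≤ (B K').card := by
    set K := t - 1 with hK
    have h1 := split K (B K)
    have h2 := filter_trace_half hF hT K (by omega) (B K)
    have h3 := lost K (by omega) (by omega)
    have h4 := down (K - K') K' hK'L (by omega)
    have e4 : K' + (K - K') = K := by omega
    rw [e4] at h4
    have h5 := hK2 K htK2
    by_contra hc
    push Not at hc
    have h6 : (B K').card + 1 ≤ A * 2 ^ (K' - L) := hc
    have h7 : ((B K').card + 1) * 2 ^ (n - K') ≤ A * 2 ^ (n - L) := by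
      have e : n - L = (K' - L) + (n - K') := by omega
      rw [e, pow_add, ← mul_assoc]
      exact Nat.mul_le_mul_right _ h6
    have h8 : (B K).card * 2 ^ (n - K) ≤ (B K').card * 2 ^ (n - K') := by
      have e : n - K' = (K - K') + (n - K) := by omega
      rw [e, pow_add, ← mul_assoc]
      exact Nat.mul_le_mul_right _ h4
    have h9 : 2 ^ (n - K') < 2 * (F.filter (fun X => X ∩ range K ∉ B K)).card := by
      rw [add_mul, one_mul] at h7
      omega
    have h10 : (2 : ℝ) ^ (n - K') < 2 * ((F.filter (fun X => X ∩ range K ∉ B K)).card : ℝ) := by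
      exact_mod_cast h9
    have h11 : (2 : ℝ) ^ n = 2 ^ K' * 2 ^ (n - K') := by
      rw [← pow_add]; congr 1; omega
    have h12 : (0 : ℝ) < (19 / 20) ^ K := by positivity
    have h13 : (0 : ℝ) ≤ K := Nat.cast_nonneg K
    have h14 : (0 : ℝ) < 2 ^ K' := by positivity
    have h15 : (0 : ℝ) < 2 ^ (n - K') := by positivity
    have h16 : 20 * 2 ^ K' * (19 / 20 : ℝ) ^ K ≤ 1 := by
      refine le_trans ?_ h5
      have : (19 / 20 : ℝ) ^ K ≤ (2 * (K : ℝ) + 1) * (19 / 20) ^ K := by nlinarith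
      exact mul_le_mul_of_nonneg_left this (by positivity)
    rw [h11] at h3
    nlinarith
  have exact_card : ∀ l, L ≤ l → l ≤ K' → (B l).card = A * 2 ^ (l - L) := by
    intro l h1 h2
    apply le_antisymm (ub l h1 (by omega))
    have h3 := down (K' - l) l h1 (by omega)
    have e : l + (K' - l) = K' := by omega
    rw [e] at h3
    have e2 : K' - L = (l - L) + (K' - l) := by omega
    rw [e2, pow_add, ← mul_assoc] at hopt
    exact Nat.le_of_mul_le_mul_right (hopt.trans h3) (by positivity)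
  have hC : (B L).card = A := by simpa using exact_card L le_rfl hK'L
  have traces : ∀ k, L + k ≤ K' → ∀ X ∈ B (L + k), X ∩ range L ∈ B L := by
    intro k
    induction k with
    | zero =>
      intro _ X hX
      have := (b2 L le_rfl hn).1.sub hX
      rw [inter_eq_left.2 (mem_powerset.1 this)]
      exact hX
    | succ k ih =>
      intro hk X hX
      have h1 := (b3 (L + k) (by omega) (by omega)).eq (by
        rw [exact_card (L + k + 1) (by omega) (by omega), exact_card (L + k) (by omega) (by omega)]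
        have : L + k + 1 - L = (L + k - L) + 1 := by omega
        rw [this, pow_succ]; ring) X hX
      have h2 := ih (by omega) _ h1
      rwa [inter_assoc, inter_eq_right.2 (range_subset_range.2 (Nat.le_add_right L k))] at h2
  -- Step B
  have hex : ∃ l, L ≤ l ∧ l ≤ n ∧ ∃ y ∈ B l, y ∩ range L ∉ B L := by
    refine ⟨n, hn, le_rfl, ?_⟩
    by_contra hc
    push Not at hc
    have h1 := filter_trace_half hF hT L (by omega) (B L)
    rw [filter_eq_self.2 (b1 ▸ hc), hC] at h1
    omega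
  obtain ⟨hLM, hMn, y, hy, hyC⟩ := Nat.find_spec hex
  have hmin := fun m => Nat.find_min hex (m := m)
  set M := Nat.find hex with hM
  have hMK : K' < M := by
    by_contra hc
    have e : M = L + (M - L) := by omega
    exact hyC (traces (M - L) (by omega) y (e ▸ hy))
  have hprev : ∀ X ∈ B (M - 1), X ∩ range L ∈ B L := by
    intro X hX
    by_contra hc
    exact hmin (M - 1) (by omega) ⟨by omega, by omega, X, hX, hc⟩
  have hout : ((F.filter (fun X => X ∩ range L ∉ B L)).card : ℝ) ≤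
      10 * (19 / 20) ^ (M - 1) * 2 ^ n := by
    refine le_trans ?_ (lost (M - 1) (by omega) (by omega))
    have : F.filter (fun X => X ∩ range L ∉ B L) ⊆
        F.filter (fun X => X ∩ range (M - 1) ∉ B (M - 1)) := by
      intro X hX
      obtain ⟨x1, x2⟩ := mem_filter.1 hX
      refine mem_filter.2 ⟨x1, fun hc => x2 ?_⟩
      have := hprev _ hc
      rwa [inter_assoc, inter_eq_right.2 (range_subset_range.2 (by omega))] at this
    exact_mod_cast card_le_card this
  obtain ⟨u, hu, v, hv, huv⟩ := rigid s L (by omega) (B L) (b2 L le_rfl hn).1.sub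
    (b2 L le_rfl hn).2 hC (y ∩ range L) inter_subset_right hyC
  have hBM := b2 M hLM hMn
  have hcross := fib_cross hBM.1.sub L u v (by
    intro X hX Z hZ
    obtain ⟨x1, x2⟩ := mem_filter.1 hX
    obtain ⟨z1, z2⟩ := mem_filter.1 hZ
    have h1 := hBM.2 X x1 Z z1 y hy
    have h2 : u ∩ v ∩ (y ∩ range L) = X ∩ Z ∩ y ∩ range L := by
      rw [← x2, ← z2]; ext a; simp only [mem_inter]; tauto
    rw [h2] at huv
    obtain ⟨a, a1, a2⟩ := exists_mem_notMem_of_card_lt_card (huv.trans_le h1)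
    apply card_lt_card
    refine ⟨inter_subset_left, fun hc => a2 ?_⟩
    have := hc (mem_inter.1 a1).1
    exact mem_inter.2 ⟨a1, (mem_inter.1 this).2⟩)
  obtain ⟨w, hw, hw2⟩ : ∃ w ∈ B L, 2 * (fib (B M) L w).card ≤ 2 ^ (M - L) := by
    rcases le_total (fib (B M) L u).card (fib (B M) L v).card with h | h
    · exact ⟨u, hu, by omega⟩
    · exact ⟨v, hv, by omega⟩
  have hloss := fibre_loss hLM hMn (by omega) hF hT hBM.1.sub w hw2
  have hlostM := lost M hLM hMn
  have h1 := split L (B L)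
  rw [card_filter_trace, ← add_sum_erase _ _ hw] at h1
  have h2 : 2 * ∑ x ∈ (B L).erase w, (fib F L x).card + 2 ^ (n - L) ≤ A * 2 ^ (n - L) := by
    have h3 : 2 * ∑ x ∈ (B L).erase w, (fib F L x).card ≤ ((B L).erase w).card * 2 ^ (n - L) := by
      rw [← smul_eq_mul ((B L).erase w).card, ← sum_const, mul_sum]
      exact sum_le_sum (fun u _ => fib_half hF hT L (by omega) u)
    have h4 := card_erase_add_one hw
    rw [← hC, ← h4, add_mul, one_mul]
    omega
  have h3 : 2 ^ (n - L) < 2 * ((fib F L w).card + (F.filter (fun X => X ∩ range L ∉ B L)).card) := by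
    omega
  have h4 : (2 : ℝ) ^ (n - L) < 2 * (((fib F L w).card : ℝ) +
      (F.filter (fun X => X ∩ range L ∉ B L)).card) := by exact_mod_cast h3
  have h5 := hK1 M (by omega)
  have h6 : (2 : ℝ) ^ n = 2 ^ L * 2 ^ (n - L) := by
    rw [← pow_add]; congr 1; omega
  have h7 : (19 / 20 : ℝ) ^ M = (19 / 20) ^ (M - 1) * (19 / 20) := by
    rw [← pow_succ]; congr 1; omega
  set m : ℝ := ((M - L : ℕ) : ℝ) with hm
  have hm0 : 0 ≤ m := Nat.cast_nonneg _
  have hmM : m ≤ M := by rw [hm]; exact_mod_cast Nat.sub_le M L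
  set ρ : ℝ := (19 / 20) ^ (M - 1) with hρ
  have hρ0 : 0 < ρ := by positivity
  set T : ℝ := 2 ^ (n - L) with hT'
  have hT0 : 0 < T := by positivity
  set Q : ℝ := 2 ^ L with hQ
  have hQ0 : 0 < Q := by positivity
  rw [h7] at h5 hlostM
  rw [h6] at hlostM hout
  have h8 : T * (1 / (4 * (2 * m + 1))) < (39 / 2) * ρ * Q * T := by nlinarith
  have h9 : 1 / (4 * (2 * m + 1)) < (39 / 2) * ρ * Q := by
    by_contra hc
    push Not at hc
    have := mul_le_mul_of_nonneg_left hc hT0.le
    nlinarith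
  rw [div_lt_iff₀ (by positivity)] at h9
  have h10 : ρ * Q * (2 * m + 1) ≤ ρ * Q * (2 * (M : ℝ) + 1) :=
    mul_le_mul_of_nonneg_left (by linarith) (by positivity)
  nlinarith

end Pool.Agent.H371Z.Inc
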